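import Mathlib

set_option autoImplicit false

namespace Pool.Agent.H.MP_3a9720_mp

open Filter Topology

def R (ε δ : ℝ) (g h : ℂ) : Prop :=
  g.im < 0 ∧ h.im < 0 ∧ ‖g‖ ≤ 1 / ε ∧ ‖h‖ ≤ 1 / ε ∧ ‖g - h‖ ^ 2 ≤ δ * (g.im * h.im)

lemma inv_facts {ε : ℝ} (hε : 0 < ε) {G : ℂ} (hG : ε ≤ G.im) :
    G ≠ 0 ∧ (G⁻¹).im = -G.im / ‖G‖ ^ 2 ∧ (G⁻¹).im < 0 ∧ ‖G⁻¹‖ ≤ 1 / ε := by
  have h0 : G ≠ 0 := by
    rintro rfl
    simp at hG
    linarith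
  have h1 : (G⁻¹).im = -G.im / ‖G‖ ^ 2 := by
    rw [Complex.inv_im, Complex.normSq_eq_norm_sq]
  refine ⟨h0, h1, ?_, ?_⟩
  · rw [h1]
    have : 0 < ‖G‖ := norm_pos_iff.mpr h0
    apply div_neg_of_neg_of_pos (by linarith) (by positivity)
  · rw [norm_inv, one_div]
    exact inv_anti₀ hε (hG.trans ((le_abs_self _).trans (Complex.abs_im_le_norm G)))

lemma R.step {ε δ : ℝ} (hε : 0 < ε) (hδ : 0 ≤ δ) {u g1 g2 h1 h2 : ℂ} (hu : u.im = ε)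
    (r1 : R ε δ g1 h1) (r2 : R ε δ g2 h2) :
    R ε ((2 / (ε ^ 2 + 2)) ^ 2 * δ) (u - g1 - g2)⁻¹ (u - h1 - h2)⁻¹ := by
  obtain ⟨a1, b1, c1, d1, e1⟩ := r1
  obtain ⟨a2, b2, c2, d2, e2⟩ := r2
  have hG : (u - g1 - g2).im = ε + (-g1.im + -g2.im) := by simp [hu]; ring
  have hH : (u - h1 - h2).im = ε + (-h1.im + -h2.im) := by simp [hu]; ring
  obtain ⟨G0, G1, G2, G3⟩ := inv_facts hε (G := u - g1 - g2) (by linarith)
  obtain ⟨H0, H1, H2, H3⟩ := inv_facts hε (G := u - h1 - h2) (by linarith)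
  refine ⟨G2, H2, G3, H3, ?_⟩
  have key : ∀ s : ℝ, 0 ≤ s → s ≤ 2 / ε → s ≤ 2 / (ε ^ 2 + 2) * (ε + s) := by
    intro s h0 hs
    rw [le_div_iff₀ hε] at hs
    rw [div_mul_eq_mul_div, le_div_iff₀ (by positivity)]
    nlinarith
  have im_le : ∀ g : ℂ, ‖g‖ ≤ 1 / ε → -g.im ≤ 1 / ε := fun g hg =>
    (neg_le_abs _).trans ((Complex.abs_im_le_norm g).trans hg)
  have k1 := key (-g1.im + -g2.im) (by linarith) (by
    have := im_le _ c1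
    have := im_le _ c2
    have : 2 / ε = 1 / ε + 1 / ε := by ring
    linarith)
  have k2 := key (-h1.im + -h2.im) (by linarith) (by
    have := im_le _ d1
    have := im_le _ d2
    have : 2 / ε = 1 / ε + 1 / ε := by ring
    linarith)
  have k3 : ‖(g1 - h1) + (g2 - h2)‖ ^ 2 ≤ δ * ((-g1.im + -g2.im) * (-h1.im + -h2.im)) := by
    have t1 := norm_add_le (g1 - h1) (g2 - h2)
    have t2 : 2 * ‖g1 - h1‖ * ‖g2 - h2‖ ≤ δ * (g1.im * h2.im + g2.im * h1.im) := by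
      have p1 : 0 ≤ g1.im * h2.im := by nlinarith
      have p2 : 0 ≤ g2.im * h1.im := by nlinarith
      apply le_of_sq_le_sq _ (by positivity)
      have := mul_le_mul e1 e2 (by positivity) (le_trans (by positivity) e1)
      nlinarith [sq_nonneg (δ * (g1.im * h2.im - g2.im * h1.im))]
    have t3 := pow_le_pow_left₀ (norm_nonneg _) t1 2
    nlinarith
  have k4 : (u - g1 - g2)⁻¹ - (u - h1 - h2)⁻¹ =
      ((g1 - h1) + (g2 - h2)) / ((u - g1 - g2) * (u - h1 - h2)) := by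
    field_simp
    ring
  have nG : 0 < ‖u - g1 - g2‖ := norm_pos_iff.mpr G0
  have nH : 0 < ‖u - h1 - h2‖ := norm_pos_iff.mpr H0
  rw [k4, G1, H1, hG, hH, norm_div, norm_mul, div_pow, div_le_iff₀ (by positivity)]
  have k5 := mul_le_mul k1 k2 (by linarith) (le_trans (by linarith) k1)
  have k6 := mul_le_mul_of_nonneg_left k5 hδ
  refine k3.trans (k6.trans (le_of_eq ?_))
  field_simp

noncomputable def Φ (w : ℂ) (v : ℂ × ℂ × ℂ × ℂ) : ℂ × ℂ × ℂ × ℂ :=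
  ((w - 1 / 4 - v.1 - v.2.2.2)⁻¹, (w + 1 / 4 - v.2.1 - v.2.2.1)⁻¹,
    (w - 1 / 4 - v.1 - v.1)⁻¹, (w + 1 / 4 - v.2.1 - v.2.1)⁻¹)

def R4 (ε δ : ℝ) (v v' : ℂ × ℂ × ℂ × ℂ) : Prop :=
  R ε δ v.1 v'.1 ∧ R ε δ v.2.1 v'.2.1 ∧ R ε δ v.2.2.1 v'.2.2.1 ∧ R ε δ v.2.2.2 v'.2.2.2

lemma R4.step {ε δ : ℝ} (hε : 0 < ε) (hδ : 0 ≤ δ) {w : ℂ} (hw : w.im = ε) {v v' : ℂ × ℂ × ℂ × ℂ}
    (h : R4 ε δ v v') : R4 ε ((2 / (ε ^ 2 + 2)) ^ 2 * δ) (Φ w v) (Φ w v') := by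
  obtain ⟨a, b, c, d⟩ := h
  have h1 : (w - 1 / 4).im = ε := by simp [hw]
  have h2 : (w + 1 / 4).im = ε := by simp [hw]
  exact ⟨R.step hε hδ h1 a d, R.step hε hδ h2 b c, R.step hε hδ h1 a a, R.step hε hδ h2 b b⟩

lemma R.dist {ε δ θ : ℝ} (hε : 0 < ε) (hδ : 0 ≤ δ) (hθ : 0 ≤ θ) {g h : ℂ} (r : R ε (θ ^ 2 * δ ^ 2) g h) :
    dist g h ≤ δ / ε * θ := by
  obtain ⟨a, b, c, d, e⟩ := r
  have im_le : ∀ g : ℂ, ‖g‖ ≤ 1 / ε → -g.im ≤ 1 / ε := fun g hg =>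
    (neg_le_abs _).trans ((Complex.abs_im_le_norm g).trans hg)
  have := mul_le_mul (im_le g c) (im_le h d) (by linarith) (by positivity)
  rw [dist_eq_norm]
  apply le_of_sq_le_sq _ (by positivity)
  have h2 := mul_le_mul_of_nonneg_left this (show 0 ≤ θ ^ 2 * δ ^ 2 by positivity)
  calc _ ≤ _ := e
    _ ≤ θ ^ 2 * δ ^ 2 * (1 / ε * (1 / ε)) := by linarith
    _ = _ := by ring

lemma R.init {ε : ℝ} {g h : ℂ} (a : g.im < 0) (b : h.im < 0) (c : ‖g‖ ≤ 1 / ε) (d : ‖h‖ ≤ 1 / ε) :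
    ∃ δ0 : ℝ, ∀ δ, δ0 ≤ δ → R ε δ g h := by
  have : 0 < g.im * h.im := by nlinarith
  refine ⟨‖g - h‖ ^ 2 / (g.im * h.im), fun δ hδ => ⟨a, b, c, d, ?_⟩⟩
  rwa [div_le_iff₀ this] at hδ

lemma fixed {w : ℂ} (hw : 0 < w.im) : ∃ v : ℂ × ℂ × ℂ × ℂ, Φ w v = v ∧ v.1.im ≤ 0 ∧ v.2.1.im ≤ 0 ∧
    v.2.2.1.im ≤ 0 ∧ v.2.2.2.im ≤ 0 := by
  obtain ⟨ε, hε⟩ : ∃ ε, w.im = ε := ⟨_, rfl⟩
  rw [hε] at hw
  have good : ∀ v : ℂ × ℂ × ℂ × ℂ, v.1.im ≤ 0 → v.2.1.im ≤ 0 → v.2.2.1.im ≤ 0 → v.2.2.2.im ≤ 0 →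
      ε ≤ (w - 1 / 4 - v.1 - v.2.2.2).im ∧ ε ≤ (w + 1 / 4 - v.2.1 - v.2.2.1).im ∧
      ε ≤ (w - 1 / 4 - v.1 - v.1).im ∧ ε ≤ (w + 1 / 4 - v.2.1 - v.2.1).im := by
    intro v a b c d
    simp [hε]
    refine ⟨?_, ?_, ?_, ?_⟩ <;> linarith
  obtain ⟨δ, hδ, h0⟩ : ∃ δ : ℝ, 0 ≤ δ ∧ R4 ε (δ ^ 2) (Φ w 0) (Φ w (Φ w 0)) := by
    obtain ⟨a1, a2, a3, a4⟩ := good 0 (by simp) (by simp) (by simp) (by simp)
    have b1 := inv_facts hw a1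
    have b2 := inv_facts hw a2
    have b3 := inv_facts hw a3
    have b4 := inv_facts hw a4
    obtain ⟨c1, c2, c3, c4⟩ := good (Φ w 0) b1.2.2.1.le b2.2.2.1.le b3.2.2.1.le b4.2.2.1.le
    have d1 := inv_facts hw c1
    have d2 := inv_facts hw c2
    have d3 := inv_facts hw c3
    have d4 := inv_facts hw c4
    obtain ⟨e1, f1⟩ := R.init b1.2.2.1 d1.2.2.1 b1.2.2.2 d1.2.2.2
    obtain ⟨e2, f2⟩ := R.init b2.2.2.1 d2.2.2.1 b2.2.2.2 d2.2.2.2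
    obtain ⟨e3, f3⟩ := R.init b3.2.2.1 d3.2.2.1 b3.2.2.2 d3.2.2.2
    obtain ⟨e4, f4⟩ := R.init b4.2.2.1 d4.2.2.1 b4.2.2.2 d4.2.2.2
    have hm : ∀ x : ℝ, x ≤ (|x| + 1) ^ 2 := fun x => by nlinarith [le_abs_self x, abs_nonneg x]
    refine ⟨|max (max e1 e2) (max e3 e4)| + 1, by positivity, f1 _ ?_, f2 _ ?_, f3 _ ?_, f4 _ ?_⟩
    all_goals refine le_trans ?_ (hm _); simp
  obtain ⟨θ, hθ⟩ : ∃ θ : ℝ, θ = 2 / (ε ^ 2 + 2) := ⟨_, rfl⟩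
  have hθ0 : 0 ≤ θ := by rw [hθ]; positivity
  have hθ1 : θ < 1 := by
    rw [hθ, div_lt_one (by positivity)]
    nlinarith
  let s : ℕ → ℂ × ℂ × ℂ × ℂ := fun n => (Φ w)^[n] (Φ w 0)
  have hs : ∀ n, s (n + 1) = Φ w (s n) := fun n => Function.iterate_succ_apply' _ _ _
  have hR : ∀ n, R4 ε ((θ ^ n) ^ 2 * δ ^ 2) (s n) (s (n + 1)) := by
    intro n
    induction n with
    | zero => simpa [s] using h0
    | succ n ih =>
      have := ih.step hw (by positivity) hε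
      rw [← hs, ← hs, ← hθ] at this
      convert this using 1
      ring
  have hc : CauchySeq s := by
    apply cauchySeq_of_le_geometric θ (δ / ε) hθ1
    intro n
    obtain ⟨a, b, c, d⟩ := hR n
    simp only [Prod.dist_eq, max_le_iff]
    exact ⟨a.dist hw hδ (by positivity), b.dist hw hδ (by positivity), c.dist hw hδ (by positivity),
      d.dist hw hδ (by positivity)⟩
  obtain ⟨v, hv⟩ := cauchySeq_tendsto_of_complete hc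
  have l1 : v.1.im ≤ 0 := le_of_tendsto' ((by fun_prop : Continuous fun v : ℂ × ℂ × ℂ × ℂ =>
    v.1.im).continuousAt.tendsto.comp hv) fun n => (hR n).1.1.le
  have l2 : v.2.1.im ≤ 0 := le_of_tendsto' ((by fun_prop : Continuous fun v : ℂ × ℂ × ℂ × ℂ =>
    v.2.1.im).continuousAt.tendsto.comp hv) fun n => (hR n).2.1.1.le
  have l3 : v.2.2.1.im ≤ 0 := le_of_tendsto' ((by fun_prop : Continuous fun v : ℂ × ℂ × ℂ × ℂ =>
    v.2.2.1.im).continuousAt.tendsto.comp hv) fun n => (hR n).2.2.1.1.le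
  have l4 : v.2.2.2.im ≤ 0 := le_of_tendsto' ((by fun_prop : Continuous fun v : ℂ × ℂ × ℂ × ℂ =>
    v.2.2.2.im).continuousAt.tendsto.comp hv) fun n => (hR n).2.2.2.1.le
  refine ⟨v, ?_, l1, l2, l3, l4⟩
  obtain ⟨a1, a2, a3, a4⟩ := good v l1 l2 l3 l4
  have hcont : ContinuousAt (Φ w) v := by
    have b1 := (inv_facts hw a1).1
    have b2 := (inv_facts hw a2).1
    have b3 := (inv_facts hw a3).1
    have b4 := (inv_facts hw a4).1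
    unfold Φ
    fun_prop (disch := assumption)
  have t1 : Tendsto (fun n => s (n + 1)) atTop (𝓝 v) := hv.comp (tendsto_add_atTop_nat 1)
  have t2 : Tendsto (fun n => s (n + 1)) atTop (𝓝 (Φ w v)) := by
    simp only [hs]
    exact hcont.tendsto.comp hv
  exact tendsto_nhds_unique t2 t1

end Pool.Agent.H.MP_3a9720_mp
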