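import Pool.Agent.H.MP_3a9720_mp.Weyl

set_option autoImplicit false

namespace Pool.Agent.H.MP_3a9720_mp

variable {W : Type} [DecidableEq W]

lemma ex_bound (g : Fin 4 → ℝ) : ∃ M, ∀ i, g i ≤ M :=
  ⟨∑ i, |g i|, fun i => (le_abs_self _).trans
    (Finset.single_le_sum (f := fun i => |g i|) (fun _ _ => abs_nonneg _) (Finset.mem_univ i))⟩

lemma ex_pos (g : Fin 4 → ℝ) (h : ∀ i, 0 < g i) : ∃ m, 0 < m ∧ ∀ i, m ≤ g i := by
  obtain ⟨i, -, hi⟩ := Finset.exists_min_image Finset.univ g Finset.univ_nonempty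
  exact ⟨g i, h i, fun j => hi j (Finset.mem_univ j)⟩

theorem conn (t : RT W) (τ : W → Fin 4) (b : W → ℝ)
    (hb : ∀ x, b x = ![1 / 4, -(1 / 4), 1 / 4, -(1 / 4)] (τ x)) (hr : b t.root = 1 / 4)
    (hch : ∀ (v : Fin 4 → ℂ) (x : W), x ≠ t.root →
      ∑ y ∈ t.ch x, v (τ y) = ![v 0 + v 3, v 1 + v 2, v 0 + v 0, v 1 + v 1] (τ x))
    (hch0 : ∀ v : Fin 4 → ℂ, ∑ y ∈ t.ch t.root, v (τ y) = v 0 + v 0 + v 3) :
    ∃ H : L W →L[ℂ] L W, IsH t b H ∧ IsPreconnected (spectrum ℂ H) := by
  obtain ⟨H, hH, hsa⟩ := exH t b (fun x => by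
    rw [hb]
    generalize τ x = i
    fin_cases i <;> norm_num [abs_of_pos])
  refine ⟨H, hH, ?_⟩
  have hrec : ∀ (z : ℝ) (p q P Q : ℂ), Sol z p q P Q → ∀ y, y ≠ t.root →
      ![p, q, P, Q] (τ y) * (z - b y - ∑ w ∈ t.ch y, ![p, q, P, Q] (τ w)) = 1 := by
    intro z p q P Q hs y hy
    obtain ⟨e1, e2, e3, e4⟩ := hs
    rw [hch _ y hy, hb]
    generalize τ y = i
    fin_cases i
    · simpa using e1
    · simpa using e2
    · simpa using e3
    · simpa using e4
  have side : ∀ (z s p q P Q : ℝ), Sol z p q P Q → s * s = 1 → p ^ 2 ≤ 1 →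
      (∀ i, 0 < s * ![p, q, P, Q] i) → ∀ x : ℝ, (x : ℂ) ∈ spectrum ℂ H → 0 ≤ s * (z - x) := by
    intro z s p q P Q hS hs hp hpos
    have cast : ∀ i, ((![p, q, P, Q] i : ℝ) : ℂ) = ![(p : ℂ), q, P, Q] i := by
      intro i; fin_cases i <;> rfl
    have hF : ∀ y, y ≠ t.root →
        ![p, q, P, Q] (τ y) * (z - b y - ∑ w ∈ t.ch y, ![p, q, P, Q] (τ w)) = 1 := by
      intro y hy
      apply Complex.ofReal_injective
      rw [Complex.ofReal_mul, Complex.ofReal_sub, Complex.ofReal_sub, Complex.ofReal_sum]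
      simp only [cast]
      exact hrec z p q P Q hS y hy
    have h0 : ∑ w ∈ t.ch t.root, ![p, q, P, Q] (τ w) = p + p + Q := by
      apply Complex.ofReal_injective
      rw [Complex.ofReal_sum]
      simp only [cast]
      rw [hch0]
      simp
    have e1 : p * (z - 1 / 4 - (p + Q)) = 1 := by
      apply Complex.ofReal_injective
      push_cast
      exact hS.1
    have hp0 : 0 < s * p := hpos 0
    obtain ⟨M1, hM1⟩ := ex_bound (fun i => s * ![p, q, P, Q] i)
    obtain ⟨M2, hM2⟩ := ex_bound (fun i => (s * ![p, q, P, Q] i)⁻¹)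
    apply schur t b H hH z s (max (max M1 M2) (s * (z - 1 / 4 - (p + p + Q)))) hs
      (fun y => ![p, q, P, Q] (τ y)) (fun y => hpos _)
      (fun y => (hM1 _).trans ((le_max_left _ _).trans (le_max_left _ _))) _ hF
    · rw [h0, hr]
      apply nonneg_of_mul_nonneg_right _ hp0
      have : s * p * (s * (z - 1 / 4 - (p + p + Q))) = 1 - p ^ 2 := by
        linear_combination (s * s) * e1 + (1 - p ^ 2) * hs
      rw [this]
      linarith
    · intro y
      by_cases hy : y = t.root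
      · rw [hy, h0, hr]
        exact le_max_right _ _
      · refine le_trans (le_of_eq ?_) ((hM2 (τ y)).trans ((le_max_right _ _).trans (le_max_left _ _)))
        apply eq_inv_of_mul_eq_one_left
        linear_combination (s * s) * hF y hy + hs
  have hoc : Set.OrdConnected {x : ℝ | (x : ℂ) ∈ spectrum ℂ H} := by
    rw [Set.ordConnected_iff]
    intro x hx y hy _ z hz
    rcases dich z with ⟨p, q, P, Q, hS, i1, i2, i3, i4⟩ | ⟨p, q, P, Q, hS, hp, h1, h2⟩
    · obtain ⟨m, hm, hm'⟩ := ex_pos (fun i => -(![p, q, P, Q] i).im) (fun i => by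
        fin_cases i <;> simpa)
      obtain ⟨M, hM⟩ := ex_bound (fun i => ‖![p, q, P, Q] i‖)
      exact weyl t b H hH z m M hm (fun y => ![p, q, P, Q] (τ y)) (fun y => hm' _) (fun y => hM _)
        (hrec z p q P Q hS)
    · rcases le_total 0 z with h | h
      · obtain ⟨a1, a2, a3, a4⟩ := h1 h
        have := side z 1 p q P Q hS (by norm_num) hp (fun i => by fin_cases i <;> simpa) y hy
        have e : z = y := le_antisymm hz.2 (by linarith)
        rw [e]; exact hy
      · obtain ⟨a1, a2, a3, a4⟩ := h2 h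
        have := side z (-1) p q P Q hS (by norm_num) hp (fun i => by fin_cases i <;> simpa) x hx
        have e : z = x := le_antisymm (by linarith) hz.1
        rw [e]; exact hx
  have e : spectrum ℂ H = Complex.ofReal '' {x : ℝ | (x : ℂ) ∈ spectrum ℂ H} := by
    ext w
    constructor
    · intro hw
      have := hsa.mem_spectrum_eq_re hw
      exact ⟨w.re, by rw [Set.mem_ofPred_eq, ← this]; exact hw, this.symm⟩
    · rintro ⟨x, hx, rfl⟩
      exact hx
  rw [e]
  exact hoc.isPreconnected.image _ Complex.continuous_ofReal.continuousOn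

end Pool.Agent.H.MP_3a9720_mp
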