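import Pool.Agent.H.MP_3a9720_mp.Conn

set_option autoImplicit false

namespace Pool.Agent.H.MP_3a9720_mp

abbrev Dt := Bool × Fin 3

def rv (d : Dt) : Dt := if d.2 = 2 then (!d.1, 2) else (d.1, 1 - d.2)

def ok (o : Option Dt) (e : Dt) : Prop :=
  match o with
  | none => e.1 = true
  | some d => e.1 = (rv d).1 ∧ e ≠ rv d

instance (o : Option Dt) (e : Dt) : Decidable (ok o e) := by
  cases o <;> (unfold ok; infer_instance)

def SD : Set (List Dt) := {l | (∀ d ∈ l.head?, d.1 = true) ∧
  ∀ (i : ℕ) (d e : Dt), l[i]? = some d → l[i+1]? = some e → (e.1 = (rv d).1 ∧ e ≠ rv d)}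

lemma mem_SD (l : List Dt) : l ∈ SD ↔ (∀ d ∈ l.head?, d.1 = true) ∧
    l.IsChain fun d e => e.1 = (rv d).1 ∧ e ≠ rv d := by
  rw [SD, Set.mem_ofPred_eq, List.isChain_iff_getElem]
  apply and_congr_right'
  constructor
  · intro h i hi
    exact h i _ _ (List.getElem?_eq_getElem _) (List.getElem?_eq_getElem _)
  · intro h i d e h1 h2
    obtain ⟨a1, rfl⟩ := List.getElem?_eq_some_iff.mp h1
    obtain ⟨a2, rfl⟩ := List.getElem?_eq_some_iff.mp h2
    exact h i a2

lemma concat_mem (l : List Dt) (e : Dt) : l ++ [e] ∈ SD ↔ l ∈ SD ∧ ok l.getLast? e := by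
  rw [mem_SD, mem_SD, List.isChain_append]
  cases l with
  | nil => simp [ok]
  | cons a l =>
    have : (a :: l).getLast? = some ((a :: l).getLast (by simp)) := List.getLast?_eq_some_getLast _
    rw [this]
    simp [ok, and_assoc]

def rtD : SD := ⟨[], by simp [mem_SD]⟩

def prD (x : SD) : SD := ⟨x.1.dropLast, by
  obtain ⟨l, hl⟩ := x
  rcases List.eq_nil_or_concat' l with rfl | ⟨l', e, rfl⟩
  · exact hl
  · simpa using ((concat_mem _ _).mp hl).1⟩

def ex (x : SD) (e : Dt) : SD :=
  if h : ok x.1.getLast? e then ⟨x.1 ++ [e], (concat_mem _ _).mpr ⟨x.2, h⟩⟩ else x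

lemma ex_val {x : SD} {e : Dt} (h : ok x.1.getLast? e) : (ex x e).1 = x.1 ++ [e] := by
  rw [ex, dif_pos h]

lemma split {y : SD} (h : y ≠ rtD) : ∃ e, y.1 = (prD y).1 ++ [e] := by
  obtain ⟨l, hl⟩ := y
  rcases List.eq_nil_or_concat' l with rfl | ⟨l', e, rfl⟩
  · exact absurd rfl h
  · exact ⟨e, by simp [prD]⟩

lemma mem_chD (x y : SD) : y ∈ (Finset.univ.filter (ok x.1.getLast?)).image (ex x) ↔
    ∃ e, y.1 = x.1 ++ [e] := by
  simp only [Finset.mem_image, Finset.mem_filter, Finset.mem_univ, true_and]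
  constructor
  · rintro ⟨e, he, rfl⟩
    exact ⟨e, ex_val he⟩
  · rintro ⟨e, he⟩
    have h := y.2
    rw [he, concat_mem] at h
    exact ⟨e, h.2, Subtype.ext (by rw [ex_val h.2, he])⟩

lemma par_iff (x y : SD) : (∃ e, y.1 = x.1 ++ [e]) ↔ y ≠ rtD ∧ prD y = x := by
  constructor
  · rintro ⟨e, he⟩
    refine ⟨?_, Subtype.ext (by simp [prD, he])⟩
    rintro rfl
    simp [rtD] at he
  · rintro ⟨h, rfl⟩
    exact split h

def tD : RT SD where
  root := rtD
  par := prD
  ch x := (Finset.univ.filter (ok x.1.getLast?)).image (ex x)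
  rk x := x.1.length
  mem_ch x y := by rw [mem_chD, par_iff]
  rk_root := rfl
  rk_par y h := by
    obtain ⟨e, he⟩ := split h
    rw [he]; simp
  card_ch x := by
    refine Finset.card_image_le.trans ?_
    generalize x.1.getLast? = o
    revert o
    decide
  ne_ch x := by
    apply Finset.Nonempty.image
    generalize x.1.getLast? = o
    revert o
    decide

def τo : Option Dt → Fin 4
  | none => 0
  | some d => if d.2 = 2 then (if d.1 then 3 else 2) else (if d.1 then 0 else 1)

noncomputable def bB (v : Bool) : ℝ := if v then 1 / 4 else -(1 / 4)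

lemma sum_chD (x : SD) (v : Fin 4 → ℂ) : ∑ y ∈ tD.ch x, v (τo y.1.getLast?) =
    ∑ e, if ok x.1.getLast? e then v (τo (some e)) else 0 := by
  simp only [tD]
  rw [Finset.sum_image, Finset.sum_filter]
  · apply Finset.sum_congr rfl
    intro e _
    split_ifs with h
    · rw [ex_val h]; simp
    · rfl
  · intro a ha b hb hab
    simp only [Finset.coe_filter, Finset.mem_univ, true_and, Set.mem_ofPred_eq] at ha hb
    have := congrArg Subtype.val hab
    rw [ex_val ha, ex_val hb] at this
    simpa using this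

lemma connD : ∃ H : L SD →L[ℂ] L SD,
    IsH tD (fun x => bB ((x.1.getLast?.map fun d => (rv d).1).getD true)) H ∧
      IsPreconnected (spectrum ℂ H) := by
  apply conn tD (fun x => τo x.1.getLast?)
  · intro x
    generalize x.1.getLast? = o
    rcases o with _ | ⟨_ | _, i⟩
    · simp [bB, τo]
    · fin_cases i <;> simp [bB, τo, rv]
    · fin_cases i <;> simp [bB, τo, rv]
  · simp [tD, rtD, bB]
  · intro v x hx
    obtain ⟨e, he⟩ := split hx
    rw [sum_chD, he]
    simp only [List.getLast?_append, List.getLast?_singleton, Option.some_or]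
    rw [Fintype.sum_prod_type]
    simp only [Fintype.sum_bool, Fin.sum_univ_three]
    rcases e with ⟨_ | _, i⟩ <;> fin_cases i <;> simp [ok, rv, τo]
  · intro v
    rw [sum_chD, Fintype.sum_prod_type]
    simp [tD, rtD, Fin.sum_univ_three, ok, τo]

lemma tsum_D (f : SD → ℂ) (x : SD) :
    ∑' y : SD, (∑ d : Dt, if (y.1 = x.1 ++ [d] ∨ x.1 = y.1 ++ [d]) then ((1 : ℝ) : ℂ) else 0) * f y =
      (if x = tD.root then 0 else f (tD.par x)) + ∑ y ∈ tD.ch x, f y := by
  have key : ∀ y : SD,
      (∑ d : Dt, if (y.1 = x.1 ++ [d] ∨ x.1 = y.1 ++ [d]) then ((1 : ℝ) : ℂ) else 0) * f y =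
      (if y = tD.par x then (if x = tD.root then 0 else f (tD.par x)) else 0) +
        if y ∈ tD.ch x then f y else 0 := by
    intro y
    have c1 : y ∈ tD.ch x ↔ ∃ e, y.1 = x.1 ++ [e] := mem_chD x y
    have c2 : (∃ e, x.1 = y.1 ++ [e]) ↔ x ≠ tD.root ∧ tD.par x = y := par_iff y x
    by_cases h1 : ∃ e, y.1 = x.1 ++ [e]
    · have h2 : ¬ ∃ e, x.1 = y.1 ++ [e] := by
        obtain ⟨e, he⟩ := h1
        rintro ⟨e', he'⟩
        have a := congrArg List.length he
        have b := congrArg List.length he'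
        simp at a b
        omega
      rw [if_pos (c1.mpr h1)]
      have h3 : (if y = tD.par x then (if x = tD.root then 0 else f (tD.par x)) else 0) = 0 := by
        split_ifs with a b
        · rfl
        · exact absurd (c2.mpr ⟨b, a.symm⟩) h2
        · rfl
      obtain ⟨e, he⟩ := h1
      rw [h3, Finset.sum_eq_single e]
      · simp [he]
      · intro d _ hd
        rw [if_neg]
        rintro (h | h)
        · rw [he] at h
          exact hd (by simpa using h.symm)
        · exact h2 ⟨d, h⟩
      · simp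
    · rw [if_neg (mt c1.mp h1)]
      by_cases h2 : ∃ e, x.1 = y.1 ++ [e]
      · obtain ⟨a, b⟩ := c2.mp h2
        obtain ⟨e, he⟩ := h2
        rw [if_pos b.symm, if_neg a, b, Finset.sum_eq_single e]
        · simp [he]
        · intro d _ hd
          rw [if_neg]
          rintro (h | h)
          · exact h1 ⟨d, h⟩
          · rw [he] at h
            exact hd (by simpa using h.symm)
        · simp
      · rw [Finset.sum_eq_zero]
        · split_ifs with a b
          · simp
          · exact absurd (c2.mpr ⟨b, a.symm⟩) h2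
          · simp
        · intro d _
          rw [if_neg]
          rintro (h | h)
          · exact h1 ⟨d, h⟩
          · exact h2 ⟨d, h⟩
  simp only [key]
  rw [Summable.tsum_add (hasSum_ite_eq _ _).summable
    (summable_of_ne_finset_zero (s := tD.ch x) fun y hy => if_neg hy), tsum_ite_eq,
    tsum_eq_sum (s := tD.ch x) fun y hy => if_neg hy]
  congr 1
  exact Finset.sum_congr rfl fun y hy => if_pos hy

end Pool.Agent.H.MP_3a9720_mp
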