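import Pool.Agent.H.MP_3a9720_mp.Real
import Pool.Agent.H.MP_3a9720_mp.Alg

set_option autoImplicit false

namespace Pool.Agent.H.MP_3a9720_mp

open Filter Topology

def Cond (w p q : ℂ) : Prop :=
  ‖p‖ ≤ 1 ∧ ‖q‖ ≤ 1 ∧ p.im ≤ 0 ∧ q.im ≤ 0 ∧
  (p * (w - 1 / 4 - p) - 1) * (w + 1 / 4 - 2 * q) = p ∧
  (q * (w + 1 / 4 - q) - 1) * (w - 1 / 4 - 2 * p) = q ∧
  4 * ‖p * (w - 1 / 4 - p) - 1‖ ^ 2 * ‖q * (w + 1 / 4 - q) - 1‖ ^ 2 ≤
    (1 - ‖p‖ ^ 2) * (1 - ‖q‖ ^ 2)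

lemma im_of_mul {p G : ℂ} (h : p * G = 1) : -p.im = ‖p‖ ^ 2 * G.im := by
  have h1 := congrArg Complex.re h
  have h2 := congrArg Complex.im h
  simp only [Complex.mul_re, Complex.mul_im, Complex.one_re, Complex.one_im] at h1 h2
  rw [← Complex.normSq_eq_norm_sq, Complex.normSq_apply]
  linear_combination p.im * h1 - p.re * h2

lemma cond_pos {w : ℂ} (hw : 0 < w.im) : ∃ p q, Cond w p q := by
  obtain ⟨⟨p, q, P, Q⟩, hv, a, b, c, d⟩ := fixed hw
  simp only [Φ, Prod.mk.injEq] at hv a b c d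
  obtain ⟨h1, h2, h3, h4⟩ := hv
  have i1 : (w - 1 / 4 - p - Q).im = w.im - p.im - Q.im := by simp
  have i2 : (w + 1 / 4 - q - P).im = w.im - q.im - P.im := by simp
  have i3 : (w - 1 / 4 - p - p).im = w.im - p.im - p.im := by simp
  have i4 : (w + 1 / 4 - q - q).im = w.im - q.im - q.im := by simp
  obtain ⟨n1, -, m1, -⟩ := inv_facts hw (G := w - 1 / 4 - p - Q) (by linarith)
  obtain ⟨n2, -, m2, -⟩ := inv_facts hw (G := w + 1 / 4 - q - P) (by linarith)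
  obtain ⟨n3, -, m3, -⟩ := inv_facts hw (G := w - 1 / 4 - p - p) (by linarith)
  obtain ⟨n4, -, m4, -⟩ := inv_facts hw (G := w + 1 / 4 - q - q) (by linarith)
  have e1 := inv_mul_cancel₀ n1
  have e2 := inv_mul_cancel₀ n2
  have e3 := inv_mul_cancel₀ n3
  have e4 := inv_mul_cancel₀ n4
  rw [h1] at e1 m1
  rw [h2] at e2 m2
  rw [h3] at e3 m3
  rw [h4] at e4 m4
  have j1 := im_of_mul e1
  have j2 := im_of_mul e2
  have j3 := im_of_mul e3
  have j4 := im_of_mul e4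
  rw [i1] at j1
  rw [i2] at j2
  rw [i3] at j3
  rw [i4] at j4
  have x1 : p * (w - 1 / 4 - p) - 1 = p * Q := by linear_combination e1
  have x2 : q * (w + 1 / 4 - q) - 1 = q * P := by linear_combination e2
  have y1 : 2 * (‖p‖ ^ 2 * ‖Q‖ ^ 2) * (-q.im) ≤ (1 - ‖p‖ ^ 2) * (-p.im) := by
    have t1 := mul_nonneg (sq_nonneg ‖p‖) hw.le
    have t2 := mul_nonneg (mul_nonneg (sq_nonneg ‖p‖) (sq_nonneg ‖Q‖)) hw.le
    have t3 : ‖p‖ ^ 2 * -Q.im = ‖p‖ ^ 2 * (‖Q‖ ^ 2 * (w.im - q.im - q.im)) := by rw [j4]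
    linarith
  have y2 : 2 * (‖q‖ ^ 2 * ‖P‖ ^ 2) * (-p.im) ≤ (1 - ‖q‖ ^ 2) * (-q.im) := by
    have t1 := mul_nonneg (sq_nonneg ‖q‖) hw.le
    have t2 := mul_nonneg (mul_nonneg (sq_nonneg ‖q‖) (sq_nonneg ‖P‖)) hw.le
    have t3 : ‖q‖ ^ 2 * -P.im = ‖q‖ ^ 2 * (‖P‖ ^ 2 * (w.im - p.im - p.im)) := by rw [j3]
    linarith
  have ip : 0 < -p.im := by linarith
  have iq : 0 < -q.im := by linarith
  have z1 : 0 ≤ 1 - ‖p‖ ^ 2 :=
    nonneg_of_mul_nonneg_left (le_trans (by positivity) y1) ip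
  have z2 : 0 ≤ 1 - ‖q‖ ^ 2 :=
    nonneg_of_mul_nonneg_left (le_trans (by positivity) y2) iq
  refine ⟨p, q, ?_, ?_, a, b, ?_, ?_, ?_⟩
  · exact le_of_sq_le_sq (by linarith) zero_le_one
  · exact le_of_sq_le_sq (by linarith) zero_le_one
  · rw [x1]; linear_combination p * e4
  · rw [x2]; linear_combination q * e3
  · rw [x1, x2, norm_mul, norm_mul]
    have := mul_le_mul y1 y2 (by positivity) (le_trans (by positivity) y1)
    apply le_of_mul_le_mul_right _ (mul_pos ip iq)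
    linarith

lemma cond_real (z : ℝ) : ∃ p q, Cond z p q := by
  let K : Set (ℝ × ℂ × ℂ) := {x | Cond (z + x.1 * Complex.I) x.2.1 x.2.2}
  have hK : IsClosed K := by
    simp only [K, Cond, Set.ofPred_and]
    refine IsClosed.inter ?_ (IsClosed.inter ?_ (IsClosed.inter ?_ (IsClosed.inter ?_
      (IsClosed.inter ?_ (IsClosed.inter ?_ ?_)))))
    · exact isClosed_le (by fun_prop) (by fun_prop)
    · exact isClosed_le (by fun_prop) (by fun_prop)
    · exact isClosed_le (by fun_prop) (by fun_prop)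
    · exact isClosed_le (by fun_prop) (by fun_prop)
    · exact isClosed_eq (by fun_prop) (by fun_prop)
    · exact isClosed_eq (by fun_prop) (by fun_prop)
    · exact isClosed_le (by fun_prop) (by fun_prop)
  have hC : IsCompact ((Set.Icc (0 : ℝ) 1 ×ˢ (Metric.closedBall (0 : ℂ) 1 ×ˢ
      Metric.closedBall (0 : ℂ) 1)) ∩ K) :=
    (isCompact_Icc.prod ((isCompact_closedBall _ _).prod (isCompact_closedBall _ _))).inter_right hK
  have hI := (hC.image continuous_fst).isClosed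
  have hsub : Set.Ioc (0 : ℝ) 1 ⊆ Prod.fst '' ((Set.Icc (0 : ℝ) 1 ×ˢ (Metric.closedBall (0 : ℂ) 1 ×ˢ
      Metric.closedBall (0 : ℂ) 1)) ∩ K) := by
    intro ε hε
    obtain ⟨p, q, h⟩ := cond_pos (w := z + ε * Complex.I) (by simpa using hε.1)
    exact ⟨(ε, p, q), ⟨⟨⟨hε.1.le, hε.2⟩, by simpa using h.1, by simpa using h.2.1⟩, h⟩, rfl⟩
  have h0 := closure_minimal hsub hI (a := 0) (by simp)
  obtain ⟨⟨ε, p, q⟩, ⟨-, h⟩, rfl⟩ := h0
  exact ⟨p, q, by simpa [K] using h⟩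

def Sol (z : ℝ) (p q P Q : ℂ) : Prop :=
  p * (z - 1 / 4 - (p + Q)) = 1 ∧ q * (z + 1 / 4 - (q + P)) = 1 ∧
  P * (z - 1 / 4 - (p + p)) = 1 ∧ Q * (z + 1 / 4 - (q + q)) = 1

lemma sol_of {z : ℝ} {p q : ℂ} (h : Cond z p q) (hp : p ≠ 0) (hq : q ≠ 0) :
    Sol z p q (z - 1 / 4 - 2 * p)⁻¹ (z + 1 / 4 - 2 * q)⁻¹ := by
  obtain ⟨-, -, -, -, h1, h2, -⟩ := h
  have hA : (z - 1 / 4 - 2 * p : ℂ) ≠ 0 := by
    intro h; rw [h, mul_zero] at h2; exact hq h2.symm
  have hB : (z + 1 / 4 - 2 * q : ℂ) ≠ 0 := by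
    intro h; rw [h, mul_zero] at h1; exact hp h1.symm
  have eA := inv_mul_cancel₀ hA
  have eB := inv_mul_cancel₀ hB
  refine ⟨?_, ?_, ?_, ?_⟩
  · linear_combination (z + 1 / 4 - 2 * q : ℂ)⁻¹ * h1 - (p * (z - 1 / 4 - p) - 1) * eB
  · linear_combination (z - 1 / 4 - 2 * p : ℂ)⁻¹ * h2 - (q * (z + 1 / 4 - q) - 1) * eA
  · linear_combination eA
  · linear_combination eB

lemma dich (z : ℝ) :
    (∃ p q P Q : ℂ, Sol z p q P Q ∧ p.im < 0 ∧ q.im < 0 ∧ P.im < 0 ∧ Q.im < 0) ∨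
    ∃ p q P Q : ℝ, Sol z p q P Q ∧ p ^ 2 ≤ 1 ∧
      (0 ≤ z → 0 < p ∧ 0 < q ∧ 0 < P ∧ 0 < Q) ∧ (z ≤ 0 → p < 0 ∧ q < 0 ∧ P < 0 ∧ Q < 0) := by
  obtain ⟨p, q, h⟩ := cond_real z
  have h' := h
  obtain ⟨np, nq, ip, iq, h1, h2, h3⟩ := h'
  by_cases hr : p.im = 0 ∧ q.im = 0
  · right
    obtain ⟨p, rfl⟩ : ∃ r : ℝ, p = r := ⟨p.re, Complex.ext (by simp) (by simp [hr.1])⟩
    obtain ⟨q, rfl⟩ : ∃ r : ℝ, q = r := ⟨q.re, Complex.ext (by simp) (by simp [hr.2])⟩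
    have a1 : p ^ 2 ≤ 1 := by
      rw [Complex.norm_real, Real.norm_eq_abs] at np
      exact (sq_le_one_iff_abs_le_one p).mpr np
    have a2 : q ^ 2 ≤ 1 := by
      rw [Complex.norm_real, Real.norm_eq_abs] at nq
      exact (sq_le_one_iff_abs_le_one q).mpr nq
    have b1 : (p * (z - 1 / 4 - p) - 1) * (z + 1 / 4 - 2 * q) = p := by
      apply Complex.ofReal_injective; push_cast; exact h1
    have b2 : (q * (z + 1 / 4 - q) - 1) * (z - 1 / 4 - 2 * p) = q := by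
      apply Complex.ofReal_injective; push_cast; exact h2
    have b3 : 4 * (p * (z - 1 / 4 - p) - 1) ^ 2 * (q * (z + 1 / 4 - q) - 1) ^ 2 ≤
        (1 - p ^ 2) * (1 - q ^ 2) := by
      have c1 : (p * (z - 1 / 4 - p) - 1 : ℂ) = ((p * (z - 1 / 4 - p) - 1 : ℝ) : ℂ) := by
        push_cast; ring
      have c2 : (q * (z + 1 / 4 - q) - 1 : ℂ) = ((q * (z + 1 / 4 - q) - 1 : ℝ) : ℂ) := by
        push_cast; ring
      rw [c1, c2] at h3
      simpa only [Complex.norm_real, Real.norm_eq_abs, sq_abs] using h3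
    have pos : 0 ≤ z → 0 < p ∧ 0 < q ∧ 0 < z - 1 / 4 - 2 * p ∧ 0 < z + 1 / 4 - 2 * q :=
      fun hz => real_case z p q hz a1 a2 b1 b2 b3
    have neg : z ≤ 0 → p < 0 ∧ q < 0 ∧ z - 1 / 4 - 2 * p < 0 ∧ z + 1 / 4 - 2 * q < 0 := by
      intro hz
      obtain ⟨d1, d2, d3, d4⟩ := real_case (-z) (-q) (-p) (by linarith) (by linarith) (by linarith)
        (by linarith) (by linarith) (by linarith)
      exact ⟨by linarith, by linarith, by linarith, by linarith⟩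
    have hp : p ≠ 0 := by
      rcases le_total 0 z with hz | hz
      · exact (pos hz).1.ne'
      · exact (neg hz).1.ne
    have hq : q ≠ 0 := by
      rcases le_total 0 z with hz | hz
      · exact (pos hz).2.1.ne'
      · exact (neg hz).2.1.ne
    refine ⟨p, q, (z - 1 / 4 - 2 * p)⁻¹, (z + 1 / 4 - 2 * q)⁻¹, ?_, a1, ?_, ?_⟩
    · have := sol_of h (by exact_mod_cast hp) (by exact_mod_cast hq)
      push_cast
      exact this
    · intro hz
      obtain ⟨d1, d2, d3, d4⟩ := pos hz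
      exact ⟨d1, d2, inv_pos.mpr d3, inv_pos.mpr d4⟩
    · intro hz
      obtain ⟨d1, d2, d3, d4⟩ := neg hz
      exact ⟨d1, d2, inv_lt_zero.mpr d3, inv_lt_zero.mpr d4⟩
  · left
    have hp : p ≠ 0 := by
      rintro rfl
      have : q = (z + 1 / 4) / 2 := by linear_combination h1 / 2
      apply hr
      rw [this]
      simp
    have hq : q ≠ 0 := by
      rintro rfl
      have : p = (z - 1 / 4) / 2 := by linear_combination h2 / 2
      apply hr
      rw [this]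
      simp
    obtain ⟨P, Q, hs⟩ : ∃ P Q, Sol z p q P Q := ⟨_, _, sol_of h hp hq⟩
    refine ⟨p, q, P, Q, hs, ?_⟩
    obtain ⟨e1, e2, e3, e4⟩ := hs
    have j1 := im_of_mul e1
    have j2 := im_of_mul e2
    have j3 := im_of_mul e3
    have j4 := im_of_mul e4
    simp at j1 j2 j3 j4
    have P0 : 0 < ‖P‖ ^ 2 := by
      have : P ≠ 0 := by rintro rfl; simp at e3
      positivity
    have Q0 : 0 < ‖Q‖ ^ 2 := by
      have : Q ≠ 0 := by rintro rfl; simp at e4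
      positivity
    have p0 : 0 < ‖p‖ ^ 2 := by positivity
    have q0 : 0 < ‖q‖ ^ 2 := by positivity
    have k1 : p.im < 0 → P.im < 0 := fun h => by nlinarith
    have k2 : q.im < 0 → Q.im < 0 := fun h => by nlinarith
    have k3 : P.im < 0 → q.im < 0 := fun h => by
      rcases iq.lt_or_eq with h' | h'
      · exact h'
      · rw [h'] at j2
        nlinarith
    have k4 : Q.im < 0 → p.im < 0 := fun h => by
      rcases ip.lt_or_eq with h' | h'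
      · exact h'
      · rw [h'] at j1
        nlinarith
    have : p.im < 0 := by
      rcases ip.lt_or_eq with h' | h'
      · exact h'
      · exact k4 (k2 (lt_of_le_of_ne iq fun h => hr ⟨h', h⟩))
    exact ⟨this, k3 (k1 this), k1 this, k2 (k3 (k1 this))⟩

end Pool.Agent.H.MP_3a9720_mp
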