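import Pool.Agent.H.MP_3a9720_mp.Dich

set_option autoImplicit false

namespace Pool.Agent.H.MP_3a9720_mp

open ContinuousLinearMap

noncomputable abbrev L (W : Type) := lp (fun _ : W => ℂ) 2

structure RT (W : Type) where
  root : W
  par : W → W
  ch : W → Finset W
  rk : W → ℕ
  mem_ch : ∀ x y, y ∈ ch x ↔ y ≠ root ∧ par y = x
  rk_root : rk root = 0
  rk_par : ∀ y, y ≠ root → rk y = rk (par y) + 1
  card_ch : ∀ x, (ch x).card ≤ 3
  ne_ch : ∀ x, (ch x).Nonempty

variable {W : Type} [DecidableEq W]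

omit [DecidableEq W] in
lemma sum_le (f : L W) (s : Finset W) : ∑ x ∈ s, ‖f x‖ ^ 2 ≤ ‖f‖ ^ 2 := by
  simpa using lp.sum_rpow_le_norm_rpow (p := 2) (by norm_num) f s

omit [DecidableEq W] in
lemma norm_le (f : L W) {C : ℝ} (hC : 0 ≤ C) (h : ∀ s : Finset W, ∑ x ∈ s, ‖f x‖ ^ 2 ≤ C ^ 2) :
    ‖f‖ ≤ C :=
  lp.norm_le_of_forall_sum_le (p := 2) (by norm_num) hC (by simpa using h)

omit [DecidableEq W] in
lemma mem_of (f : W → ℂ) {C : ℝ} (h : ∀ s : Finset W, ∑ x ∈ s, ‖f x‖ ^ 2 ≤ C) :
    Memℓp f 2 := memℓp_gen' (C := C) (by simpa using h)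

omit [DecidableEq W] in
lemma exT (φ : (W → ℂ) →ₗ[ℂ] (W → ℂ)) {C : ℝ} (hC : 0 ≤ C)
    (h : ∀ (f : L W) (s : Finset W), ∑ x ∈ s, ‖φ f x‖ ^ 2 ≤ (C * ‖f‖) ^ 2) :
    ∃ T : L W →L[ℂ] L W, ∀ f x, T f x = φ f x := by
  let T0 : L W →ₗ[ℂ] L W :=
    { toFun := fun f => ⟨φ f, mem_of _ (h f)⟩
      map_add' := fun f g => by
        apply lp.ext
        exact map_add φ (f : W → ℂ) (g : W → ℂ)
      map_smul' := fun c f => by
        apply lp.ext
        exact map_smul φ c (f : W → ℂ) }
  exact ⟨T0.mkContinuous C fun f => norm_le _ (by positivity) (h f), fun f x => rfl⟩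

lemma adj_apply (T : L W →L[ℂ] L W) (f : L W) (x : W) :
    (star T) f x = ∑' y, (starRingEnd ℂ) (T (lp.single 2 x (1 : ℂ)) y) * f y := by
  have h1 : inner ℂ (lp.single 2 x (1 : ℂ) : L W) (adjoint T f) = adjoint T f x := by
    rw [lp.inner_single_left]; simp
  rw [star_eq_adjoint, ← h1, adjoint_inner_right, lp.inner_eq_tsum]
  simp [mul_comm]

lemma exM (g : W → ℝ) {M : ℝ} (h : ∀ x, |g x| ≤ M) (hM : 0 ≤ M) :
    ∃ T : L W →L[ℂ] L W, (∀ f x, T f x = g x * f x) ∧ star T = T := by
  let φ : (W → ℂ) →ₗ[ℂ] (W → ℂ) :=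
    { toFun := fun f x => g x * f x
      map_add' := fun f g => by ext x; simp [mul_add]
      map_smul' := fun c f => by ext x; simp; ring }
  obtain ⟨T, hT⟩ := exT φ hM (fun f s => by
    calc _ ≤ ∑ x ∈ s, M ^ 2 * ‖f x‖ ^ 2 := by
          apply Finset.sum_le_sum
          intro x _
          simp only [φ, LinearMap.coe_mk, AddHom.coe_mk, norm_mul, Complex.norm_real,
            Real.norm_eq_abs, mul_pow]
          gcongr
          exact h x
      _ ≤ _ := by
          rw [← Finset.mul_sum, mul_pow]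
          gcongr
          exact sum_le f s)
  have hT' : ∀ f x, T f x = g x * f x := hT
  refine ⟨T, hT', ?_⟩
  ext f x
  rw [adj_apply, tsum_eq_single x, hT', hT']
  · simp
  · intro y hy
    rw [hT', lp.single_apply_ne _ _ _ hy]
    simp

lemma exA (t : RT W) : ∃ A : L W →L[ℂ] L W,
    (∀ f y, A f y = if y = t.root then 0 else f (t.par y)) ∧
    ∀ f x, (star A) f x = ∑ y ∈ t.ch x, f y := by
  let φ : (W → ℂ) →ₗ[ℂ] (W → ℂ) :=
    { toFun := fun f y => if y = t.root then 0 else f (t.par y)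
      map_add' := fun f g => by ext x; by_cases h : x = t.root <;> simp [h]
      map_smul' := fun c f => by ext x; by_cases h : x = t.root <;> simp [h] }
  obtain ⟨A, hA⟩ := exT φ (C := 2) (by norm_num) (fun f s => by
    rw [← Finset.sum_fiberwise_of_maps_to (g := t.par) (t := s.image t.par)
      (fun x hx => Finset.mem_image_of_mem _ hx)]
    calc _ ≤ ∑ x ∈ s.image t.par, 3 * ‖f x‖ ^ 2 := by
          apply Finset.sum_le_sum
          intro x _
          calc _ ≤ ∑ y ∈ t.ch x, ‖φ f y‖ ^ 2 := by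
                rw [← Finset.sum_filter_ne_zero]
                apply Finset.sum_le_sum_of_subset_of_nonneg
                · intro y hy
                  simp only [Finset.mem_filter] at hy
                  rw [t.mem_ch]
                  refine ⟨?_, hy.1.2⟩
                  intro h
                  apply hy.2
                  simp [φ, h]
                · intros; positivity
            _ = ∑ y ∈ t.ch x, ‖f x‖ ^ 2 := by
                apply Finset.sum_congr rfl
                intro y hy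
                rw [t.mem_ch] at hy
                simp [φ, hy.1, hy.2]
            _ ≤ _ := by
                rw [Finset.sum_const, nsmul_eq_mul]
                gcongr
                exact_mod_cast t.card_ch x
      _ ≤ _ := by
          rw [← Finset.mul_sum]
          have := sum_le f (s.image t.par)
          nlinarith [sq_nonneg ‖f‖])
  have hA' : ∀ f y, A f y = if y = t.root then 0 else f (t.par y) := hA
  refine ⟨A, hA', ?_⟩
  intro f x
  rw [adj_apply, tsum_eq_sum (s := t.ch x)]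
  · apply Finset.sum_congr rfl
    intro y hy
    rw [t.mem_ch] at hy
    rw [hA', if_neg hy.1, hy.2]
    simp
  · intro y hy
    rw [t.mem_ch] at hy
    rw [hA']
    by_cases h : y = t.root
    · simp [h]
    · rw [if_neg h, lp.single_apply_ne _ _ _ (fun h' => hy ⟨h, h'⟩)]
      simp

def IsH (t : RT W) (b : W → ℝ) (H : L W →L[ℂ] L W) : Prop :=
  ∀ f x, H f x = b x * f x + (if x = t.root then 0 else f (t.par x)) + ∑ y ∈ t.ch x, f y

lemma exH (t : RT W) (b : W → ℝ) (hb : ∀ x, |b x| ≤ 1) :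
    ∃ H : L W →L[ℂ] L W, IsH t b H ∧ IsSelfAdjoint H := by
  obtain ⟨A, h1, h2⟩ := exA t
  obtain ⟨B, h3, h4⟩ := exM b hb zero_le_one
  refine ⟨B + A + star A, ?_, ?_⟩
  · intro f x
    simp only [add_apply, lp.coeFn_add, Pi.add_apply, h1, h2, h3]
  · rw [IsSelfAdjoint, star_add, star_add, star_star, h4]
    abel

lemma schur (t : RT W) (b : W → ℝ) (H : L W →L[ℂ] L W) (hH : IsH t b H) (z s M : ℝ)
    (hs : s * s = 1) (F : W → ℝ) (h0 : ∀ y, 0 < s * F y) (hM : ∀ y, s * F y ≤ M)
    (hM' : ∀ y, s * (z - b y - ∑ w ∈ t.ch y, F w) ≤ M)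
    (hF : ∀ y, y ≠ t.root → F y * (z - b y - ∑ w ∈ t.ch y, F w) = 1)
    (hr : 0 ≤ s * (z - b t.root - ∑ w ∈ t.ch t.root, F w)) (x : ℝ) (hx : (x : ℂ) ∈ spectrum ℂ H) :
    0 ≤ s * (z - x) := by
  obtain ⟨A, h1, h2⟩ := exA t
  have hG : ∀ y, 0 ≤ s * (z - b y - ∑ w ∈ t.ch y, F w) := by
    intro y
    by_cases h : y = t.root
    · rw [h]; exact hr
    · apply nonneg_of_mul_nonneg_right _ (h0 y)
      have := hF y h
      have e : s * F y * (s * (z - b y - ∑ w ∈ t.ch y, F w)) = 1 := by
        linear_combination (s * s) * this + hs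
      rw [e]; exact zero_le_one
  obtain ⟨M1, a1, a2⟩ := exM (fun y => √(s * (z - b y - ∑ w ∈ t.ch y, F w))) (M := √M)
    (fun y => by rw [abs_of_nonneg (Real.sqrt_nonneg _)]; exact Real.sqrt_le_sqrt (hM' y))
    (Real.sqrt_nonneg _)
  obtain ⟨M2, b1, b2⟩ := exM (fun y => s * √(s * F y)) (M := |s| * √M)
    (fun y => by
      rw [abs_mul, abs_of_nonneg (Real.sqrt_nonneg _)]
      gcongr
      exact hM y) (by positivity)
  have c1 : ∀ y, √(s * (z - b y - ∑ w ∈ t.ch y, F w)) * √(s * (z - b y - ∑ w ∈ t.ch y, F w)) =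
      s * (z - b y - ∑ w ∈ t.ch y, F w) := fun y => Real.mul_self_sqrt (hG y)
  have c2 : ∀ y, (s * √(s * F y)) * (s * √(s * F y)) = s * F y := fun y => by
    have := Real.mul_self_sqrt (h0 y).le
    linear_combination (s * s) * this + (s * F y) * hs
  have c3 : ∀ y, y ≠ t.root →
      √(s * (z - b y - ∑ w ∈ t.ch y, F w)) * (s * √(s * F y)) = s := fun y hy => by
    have e : s * (z - b y - ∑ w ∈ t.ch y, F w) * (s * F y) = 1 := by
      linear_combination (s * s) * hF y hy + hs
    have := Real.sqrt_mul (hG y) (s * F y)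
    rw [e, Real.sqrt_one] at this
    linear_combination (-s) * this
  have key : star (M1 - M2 * A) * (M1 - M2 * A) = (s : ℂ) • (algebraMap ℂ _ (z : ℂ) - H) := by
    rw [star_sub, star_mul, a2, b2]
    ext f y
    simp only [mul_apply_eq_comp, sub_apply, lp.coeFn_sub, Pi.sub_apply, a1, b1, h1, h2, smul_apply,
      lp.coeFn_smul, Pi.smul_apply, smul_eq_mul, hH f y, Algebra.algebraMap_eq_smul_one,
      one_apply_eq_self]
    have d1 : ∑ w ∈ t.ch y, ((s * √(s * F w) : ℝ) : ℂ) *
        (((√(s * (z - b w - ∑ w ∈ t.ch w, F w)) : ℝ) : ℂ) * f w -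
          ((s * √(s * F w) : ℝ) : ℂ) * if w = t.root then 0 else f (t.par w)) =
        ∑ w ∈ t.ch y, (s * f w - s * F w * f y) := by
      apply Finset.sum_congr rfl
      intro w hw
      rw [t.mem_ch] at hw
      rw [if_neg hw.1, hw.2]
      have e2 := congrArg Complex.ofReal (c2 w)
      have e3 := congrArg Complex.ofReal (c3 w hw.1)
      rw [Complex.ofReal_mul] at e2 e3
      rw [Complex.ofReal_mul s (F w)] at e2
      linear_combination f w * e3 - f y * e2
    rw [d1, Finset.sum_sub_distrib, ← Finset.mul_sum, ← Finset.sum_mul, ← Finset.mul_sum]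
    have e1 := congrArg Complex.ofReal (c1 y)
    rw [Complex.ofReal_mul, Complex.ofReal_mul s, Complex.ofReal_sub, Complex.ofReal_sub,
      Complex.ofReal_sum] at e1
    by_cases hy : y = t.root
    · simp only [if_pos hy]
      linear_combination f y * e1
    · simp only [if_neg hy]
      have e3 := congrArg Complex.ofReal (c3 y hy)
      rw [Complex.ofReal_mul] at e3
      linear_combination f y * e1 - f (t.par y) * e3
  apply spectrum_star_mul_self_nonneg (b := M1 - M2 * A)
  rw [key, spectrum.mem_iff]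
  rw [spectrum.mem_iff] at hx
  intro hu
  apply hx
  have hs' : (s : ℂ) * s = 1 := by exact_mod_cast hs
  have e : algebraMap ℂ (L W →L[ℂ] L W) (x : ℂ) - H =
      algebraMap ℂ (L W →L[ℂ] L W) (-s : ℂ) * (algebraMap ℝ (L W →L[ℂ] L W) (s * (z - x)) -
        (s : ℂ) • (algebraMap ℂ _ (z : ℂ) - H)) := by
    rw [IsScalarTower.algebraMap_apply ℝ ℂ (L W →L[ℂ] L W), ← Algebra.smul_def]
    simp only [Algebra.algebraMap_eq_smul_one]
    match_scalars
    · simp
      linear_combination (-x : ℂ) * hs'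
    · linear_combination hs'
  rw [e]
  refine IsUnit.mul (IsUnit.map _ ?_) hu
  exact (IsUnit.of_mul_eq_one (-s : ℂ) (by linear_combination hs'))

end Pool.Agent.H.MP_3a9720_mp
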