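import Mathlib

set_option autoImplicit false

namespace Pool.Agent.H.MP_3a9720_mp

open Filter Topology

lemma sgn1 {c x y : ℝ} (hc : 0 < c) (h : c * x = y) (hy : 0 < y) : 0 < x := by
  by_contra hh
  have := mul_nonpos_of_nonneg_of_nonpos hc.le (not_lt.mp hh)
  linarith

lemma sgn2 {c x y : ℝ} (hc : 0 < c) (h : c * x = y) (hy : y < 0) : x < 0 := by
  by_contra hh
  have := mul_nonneg hc.le (not_lt.mp hh)
  linarith

lemma small {u a b A B p q : ℝ} (hu : 0 < u) (ha : a = 1 - p ^ 2) (hb : b = 1 - q ^ 2)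
    (hp : p < 0) (hq : 0 < q) (hA : A < 0) (hB : 0 < B) (s1 : B - A + 2 * (q - p) = 1 / 2)
    (g1 : u * (-A * B) = 1 - u) (e5 : 4 * u ^ 4 * (a * b) ≤ 1) : False := by
  have g2 : 15 / 16 ≤ a := by
    have : 0 ≤ (1 / 4 + p) * (1 / 4 - p) := mul_nonneg (by linarith) (by linarith)
    linarith
  have g3 : 15 / 16 ≤ b := by
    have : 0 ≤ (1 / 4 + q) * (1 / 4 - q) := mul_nonneg (by linarith) (by linarith)
    linarith
  have g4 : 15 / 16 * (15 / 16) ≤ a * b := mul_le_mul g2 g3 (by norm_num) (by linarith)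
  have g5 : u ^ 4 ≤ 64 / 225 := by
    have := mul_le_mul_of_nonneg_left g4 (show 0 ≤ u ^ 4 by positivity)
    linarith
  have g6 : u ≤ 3 / 4 := by
    by_contra hh
    have : (3 / 4 : ℝ) ^ 4 ≤ u ^ 4 := pow_le_pow_left₀ (by norm_num) (by linarith) 4
    norm_num at this
    linarith
  have g7 : -A * B ≤ 1 / 16 := by
    have h1 : (B - A) ^ 2 ≤ (1 / 2) ^ 2 := pow_le_pow_left₀ (by linarith) (by linarith) 2
    nlinarith [sq_nonneg (A + B)]
  have := mul_le_mul_of_nonneg_left g7 hu.le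
  linarith

lemma big {u b A B p q c : ℝ} (hu1 : 1 ≤ u) (hb : b = 1 - q ^ 2) (hp : p ^ 2 ≤ 1)
    (k0 : 0 ≤ p * q) (k2 : p * q ≤ 1 / 16) (k3 : 3 / 4 ≤ p ^ 2 + q ^ 2) (k4 : p * B ≤ 0)
    (hh : q ^ 2 ≤ p ^ 2) (f2 : u * b * A = -q) (hc : |c| = 1 / 2)
    (s1 : B - A + 2 * (q - p) = c) : False := by
  have m1 : q ^ 2 ≤ 1 / 16 := by
    apply le_of_sq_le_sq _ (by norm_num)
    have h1 := mul_le_mul_of_nonneg_left hh (sq_nonneg q)
    have h2 := pow_le_pow_left₀ k0 k2 2
    nlinarith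
  have m2 : 11 / 16 ≤ p ^ 2 := by linarith
  have m3 : 15 / 16 ≤ u * b := by
    have := mul_le_mul hu1 (show 15 / 16 ≤ b by linarith) (by norm_num) (by linarith)
    linarith
  have m4 : -(1 / 15) ≤ p * A := by
    have h1 : u * b * (p * A) = -(p * q) := by linear_combination p * f2
    by_contra hc
    have h2 := mul_le_mul m3 (show 1 / 15 ≤ -(p * A) by linarith) (by norm_num) (by linarith)
    have h3 := mul_lt_mul_of_pos_left (show 1 / 15 < -(p * A) by linarith)
      (show 0 < u * b by linarith)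
    linarith
  have m5 : p * B - p * A + 2 * (p * q) - 2 * p ^ 2 = p * c := by linear_combination p * s1
  have m6 : |p| ≤ 1 := abs_le_one_iff_mul_self_le_one.mpr (by linarith)
  have m7 : -(1 / 2) ≤ p * c := by
    have h1 := neg_abs_le (p * c)
    rw [abs_mul, hc] at h1
    linarith
  linarith

lemma real_case (z p q : ℝ) (hz : 0 ≤ z) (hp : p ^ 2 ≤ 1) (hq : q ^ 2 ≤ 1)
    (h1 : (p * (z - 1 / 4 - p) - 1) * (z + 1 / 4 - 2 * q) = p)
    (h2 : (q * (z + 1 / 4 - q) - 1) * (z - 1 / 4 - 2 * p) = q)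
    (h3 : 4 * (p * (z - 1 / 4 - p) - 1) ^ 2 * (q * (z + 1 / 4 - q) - 1) ^ 2 ≤
      (1 - p ^ 2) * (1 - q ^ 2)) :
    0 < p ∧ 0 < q ∧ 0 < z - 1 / 4 - 2 * p ∧ 0 < z + 1 / 4 - 2 * q := by
  obtain ⟨X, hX⟩ : ∃ X, X = p * (z - 1 / 4 - p) - 1 := ⟨_, rfl⟩
  obtain ⟨Y, hY⟩ : ∃ Y, Y = q * (z + 1 / 4 - q) - 1 := ⟨_, rfl⟩
  obtain ⟨A, hA⟩ : ∃ A, A = z - 1 / 4 - 2 * p := ⟨_, rfl⟩
  obtain ⟨B, hB⟩ : ∃ B, B = z + 1 / 4 - 2 * q := ⟨_, rfl⟩
  obtain ⟨a, ha⟩ : ∃ a, a = 1 - p ^ 2 := ⟨_, rfl⟩
  obtain ⟨b, hb⟩ : ∃ b, b = 1 - q ^ 2 := ⟨_, rfl⟩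
  rw [← hX, ← hB] at h1
  rw [← hY, ← hA] at h2
  rw [← hX, ← hY, ← ha, ← hb] at h3
  rw [← hA, ← hB]
  have e1 : p * A = X + a := by rw [hA, hX, ha]; ring
  have e2 : q * B = Y + b := by rw [hB, hY, hb]; ring
  have hX0 : X ≠ 0 := by
    intro h
    rw [h, zero_mul] at h1
    rw [← h1, h] at hX
    norm_num at hX
  have hY0 : Y ≠ 0 := by
    intro h
    rw [h, zero_mul] at h2
    rw [← h2, h] at hY
    norm_num at hY
  have ha0 : 0 ≤ a := by linarith
  have hb0 : 0 ≤ b := by linarith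
  have hab : 0 < a * b := lt_of_lt_of_le (by positivity) h3
  have ha1 : 0 < a := lt_of_le_of_ne ha0 (by rintro rfl; simp at hab)
  have hb1 : 0 < b := lt_of_le_of_ne hb0 (by rintro rfl; simp at hab)
  have e3 : X * b = Y * a := by
    linear_combination q * h1 - p * h2 - X * e2 + Y * e1
  obtain ⟨t, ht⟩ : ∃ t, X = t * a := ⟨X / a, by field_simp⟩
  have ht' : Y = t * b := by
    apply mul_right_cancel₀ ha1.ne'
    rw [← e3, ht]; ring
  have e4 : p * q = t * (t + 1) * (a * b) := by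
    rw [ht] at h1
    rw [ht'] at e2
    linear_combination (-q) * h1 + t * a * e2
  have e5 : 4 * t ^ 4 * (a * b) ≤ 1 := by
    rw [ht, ht'] at h3
    apply le_of_mul_le_mul_right _ hab
    linarith
  have s1 : B - A + 2 * (q - p) = 1 / 2 := by rw [hA, hB]; ring
  have s2 : 0 ≤ A + B + 2 * (p + q) := by rw [hA, hB]; linarith
  rw [ht] at h1
  rw [ht'] at h2
  have ht0 : t ≠ 0 := by rintro rfl; simp at ht; exact hX0 ht
  clear hX hY h3 e1 e2 e3 hA hB
  rcases lt_or_gt_of_ne ht0 with hn | hpos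
  · exfalso
    obtain ⟨u, rfl⟩ : ∃ u, t = -u := ⟨-t, by ring⟩
    have hu : 0 < u := by linarith
    have f1 : u * a * B = -p := by linarith
    have f2 : u * b * A = -q := by linarith
    have hua : 0 < u * a := by positivity
    have hub : 0 < u * b := by positivity
    have e5' : 4 * u ^ 4 * (a * b) ≤ 1 := by linarith
    have e4' : p * q = u * (u - 1) * (a * b) := by linarith
    rcases lt_or_ge u 1 with hu1 | hu1
    · have hpq : p * q < 0 := by
        rw [e4']
        exact mul_neg_of_neg_of_pos (mul_neg_of_pos_of_neg hu (by linarith)) hab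
      rcases lt_trichotomy p 0 with hp0 | hp0 | hp0
      · have hq0 : 0 < q := sgn1 (c := -p) (by linarith) rfl (by linarith)
        have hB0 : 0 < B := sgn1 hua f1 (by linarith)
        have hA0 : A < 0 := sgn2 hub f2 (by linarith)
        have g1 : u * (-A * B) = 1 - u := by
          apply mul_right_cancel₀ (show u * (a * b) ≠ 0 by positivity)
          linear_combination (-(u * b * A)) * f1 + p * f2 - e4'
        exact small hu ha hb hp0 hq0 hA0 hB0 s1 g1 e5'
      · simp [hp0] at hpq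
      · have hq0 : q < 0 := sgn2 hp0 rfl hpq
        have hB0 : B < 0 := sgn2 hua f1 (by linarith)
        have hA0 : 0 < A := sgn1 hub f2 (by linarith)
        linarith
    · have k0 : 0 ≤ p * q := by
        rw [e4']
        have : 0 ≤ u - 1 := by linarith
        positivity
      have k1 : a * b ≤ 1 / 4 := by
        have := mul_le_mul_of_nonneg_right (one_le_pow₀ hu1 : 1 ≤ u ^ 4) hab.le
        linarith
      have k2 : p * q ≤ 1 / 16 := by
        rw [e4']
        have : 4 * (u * (u - 1)) ≤ u ^ 4 := by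
          have h1 := sq_nonneg (u ^ 2 - 2 * u + 1 / 2)
          have h2 := mul_nonneg hu.le (sq_nonneg (u - 9 / 8))
          linarith
        have := mul_le_mul_of_nonneg_right this hab.le
        linarith
      have k3 : 3 / 4 ≤ p ^ 2 + q ^ 2 := by
        rw [ha, hb] at k1
        linarith [sq_nonneg (p * q)]
      have k4 : p * B ≤ 0 := by
        have := mul_nonneg hua.le (sq_nonneg B)
        have e : p * B = -(u * a * B ^ 2) := by linear_combination B * f1
        linarith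
      have k5 : q * A ≤ 0 := by
        have := mul_nonneg hub.le (sq_nonneg A)
        have e : q * A = -(u * b * A ^ 2) := by linear_combination A * f2
        linarith
      rcases le_total (q ^ 2) (p ^ 2) with hh | hh
      · exact big hu1 hb hp k0 k2 k3 k4 hh f2 (by norm_num) s1
      · exact big (c := -(1 / 2)) hu1 ha hq (by linarith) (by linarith) (by linarith) k5 hh f1
          (by norm_num) (by linarith)
  · have hta : 0 < t * a := by positivity
    have htb : 0 < t * b := by positivity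
    have hpq : 0 < p * q := by rw [e4]; positivity
    rcases lt_trichotomy p 0 with hp0 | hp0 | hp0
    · exfalso
      have hq0 : q < 0 := sgn2 (c := -p) (by linarith) rfl (by linarith)
      have hB0 : B < 0 := sgn2 hta h1 hp0
      have hA0 : A < 0 := sgn2 htb h2 hq0
      linarith
    · simp [hp0] at hpq
    · have hq0 : 0 < q := sgn1 hp0 rfl hpq
      exact ⟨hp0, hq0, sgn1 htb h2 hq0, sgn1 hta h1 hp0⟩

end Pool.Agent.H.MP_3a9720_mp
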