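import Pool.Agent.H.MP_3a9720_mp.Conn

set_option autoImplicit false

namespace Pool.Agent.H.MP_3a9720_mp

def Wd : Type := {l : List (Fin 3) // l.IsChain (· ≠ ·)}

instance : DecidableEq Wd := inferInstanceAs (DecidableEq {l : List (Fin 3) // l.IsChain (· ≠ ·)})

def sl (i : Fin 3) : List (Fin 3) → List (Fin 3)
  | [] => [i]
  | j :: l => if j = i then l else i :: j :: l

def s (i : Fin 3) (x : Wd) : Wd := ⟨sl i x.1, by
  obtain ⟨l, h⟩ := x
  cases l with
  | nil => simp [sl]
  | cons j l =>
    simp only [sl]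
    split_ifs with hj
    · exact h.tail
    · exact List.IsChain.cons_cons (Ne.symm hj) h⟩

def rt : Wd := ⟨[], List.IsChain.nil⟩

def pr (x : Wd) : Wd := ⟨x.1.tail, x.2.tail⟩

lemma s_of_ne {i : Fin 3} {x : Wd} (h : x.1.head? ≠ some i) : (s i x).1 = i :: x.1 := by
  obtain ⟨l, hl⟩ := x
  cases l with
  | nil => rfl
  | cons j l =>
    have : j ≠ i := by simpa using h
    simp [s, sl, this]

lemma s_of_eq {i : Fin 3} {x : Wd} (h : x.1.head? = some i) : s i x = pr x := by
  obtain ⟨l, hl⟩ := x
  cases l with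
  | nil => simp at h
  | cons j l =>
    have : j = i := by simpa using h
    apply Subtype.ext
    simp [s, sl, this, pr]

lemma s_pr {i : Fin 3} {x : Wd} (h : x.1.head? = some i) :
    (pr x).1.head? ≠ some i ∧ s i (pr x) = x := by
  obtain ⟨l, hl⟩ := x
  cases l with
  | nil => simp at h
  | cons j l =>
    have e : j = i := by simpa using h
    subst e
    have h1 : (pr ⟨j :: l, hl⟩).1.head? ≠ some j := by
      cases l with
      | nil => simp [pr]
      | cons k l =>
        have := (List.isChain_cons_cons.mp hl).1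
        simpa [pr] using this.symm
    exact ⟨h1, Subtype.ext (s_of_ne h1)⟩

lemma s_s (i : Fin 3) (x : Wd) : s i (s i x) = x := by
  by_cases h : x.1.head? = some i
  · rw [s_of_eq h, (s_pr h).2]
  · have h1 := s_of_ne h
    rw [s_of_eq (by rw [h1]; rfl)]
    apply Subtype.ext
    simp [pr, h1]

lemma ne_rt {x : Wd} (h : x ≠ rt) : ∃ i, x.1.head? = some i := by
  obtain ⟨l, hl⟩ := x
  cases l with
  | nil => exact absurd rfl h
  | cons j l => exact ⟨j, rfl⟩

lemma len_pr {x : Wd} (h : x ≠ rt) : x.1.length = (pr x).1.length + 1 := by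
  obtain ⟨l, hl⟩ := x
  cases l with
  | nil => exact absurd rfl h
  | cons j l => simp [pr]

lemma ne_rt_of {x : Wd} {i : Fin 3} (h : x.1.head? = some i) : x ≠ rt := by
  rintro rfl
  simp [rt] at h

lemma s_inj (x : Wd) : Function.Injective fun i => s i x := by
  intro i j hij
  have hij' : s i x = s j x := hij
  by_cases hi : x.1.head? = some i <;> by_cases hj : x.1.head? = some j
  · simpa [hi] using hj
  · have h1 := s_of_ne hj
    rw [← hij', s_of_eq hi] at h1
    have := len_pr (ne_rt_of hi)
    rw [h1] at this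
    simp at this
    omega
  · have h1 := s_of_ne hi
    rw [hij', s_of_eq hj] at h1
    have := len_pr (ne_rt_of hj)
    rw [h1] at this
    simp at this
    omega
  · have h1 := s_of_ne hi
    rw [hij', s_of_ne hj] at h1
    simpa using h1.symm

def tW : RT Wd where
  root := rt
  par := pr
  ch x := (Finset.univ.filter fun i => x.1.head? ≠ some i).image fun i => s i x
  rk x := x.1.length
  mem_ch x y := by
    simp only [Finset.mem_image, Finset.mem_filter, Finset.mem_univ, true_and]
    constructor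
    · rintro ⟨i, hi, rfl⟩
      have h1 := s_of_ne hi
      refine ⟨ne_rt_of (i := i) (by rw [h1]; rfl), Subtype.ext ?_⟩
      simp [pr, h1]
    · rintro ⟨h, rfl⟩
      obtain ⟨i, hi⟩ := ne_rt h
      exact ⟨i, s_pr hi⟩
  rk_root := rfl
  rk_par _ h := len_pr h
  card_ch x := Finset.card_image_le.trans ((Finset.card_filter_le _ _).trans (by simp))
  ne_ch x := by
    apply Finset.Nonempty.image
    by_cases h : x.1.head? = some 0
    · exact ⟨1, by simp [h]⟩
    · exact ⟨0, by simp [h]⟩

lemma sum_ch (x : Wd) (f : Wd → ℂ) :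
    ∑ y ∈ tW.ch x, f y = ∑ i, if x.1.head? = some i then 0 else f (s i x) := by
  simp only [tW]
  rw [Finset.sum_image (fun i _ j _ h => s_inj x h), Finset.sum_filter]
  apply Finset.sum_congr rfl
  intro i _
  split_ifs <;> simp_all

def sg : List (Fin 3) → Bool
  | [] => true
  | j :: l => if j = 2 then !sg l else sg l

lemma sg_s (i : Fin 3) (x : Wd) : sg (s i x).1 = if i = 2 then !sg x.1 else sg x.1 := by
  by_cases h : x.1.head? = some i
  · have h1 := s_of_ne (s_pr h).1
    rw [(s_pr h).2] at h1
    rw [s_of_eq h, h1, sg]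
    split_ifs <;> simp
  · rw [s_of_ne h, sg]

def τ (x : Wd) : Fin 4 :=
  if x.1.head? = some 2 then (if sg x.1 then 2 else 3) else (if sg x.1 then 0 else 1)

noncomputable def bW (x : Wd) : ℝ := if sg x.1 then 1 / 4 else -(1 / 4)

lemma τ_s {i : Fin 3} {x : Wd} (h : x.1.head? ≠ some i) :
    τ (s i x) = if i = 2 then (if sg x.1 then 3 else 2) else (if sg x.1 then 0 else 1) := by
  rw [τ, sg_s, s_of_ne h]
  by_cases hi : i = 2 <;> cases sg x.1 <;> simp [hi]

lemma connW : ∃ H : L Wd →L[ℂ] L Wd, IsH tW bW H ∧ IsPreconnected (spectrum ℂ H) := by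
  apply conn tW τ bW
  · intro x
    rw [bW, τ]
    split_ifs <;> simp
  · simp [bW, tW, rt, sg]
  · intro v x hx
    obtain ⟨j, hj⟩ := ne_rt hx
    rw [sum_ch]
    have : ∀ i, (if x.1.head? = some i then 0 else v (τ (s i x))) = if j = i then 0 else
        v (if i = 2 then (if sg x.1 then 3 else 2) else (if sg x.1 then 0 else 1)) := by
      intro i
      by_cases h : j = i
      · simp [hj, h]
      · have h' : x.1.head? ≠ some i := by simp [hj, h]
        rw [if_neg h', if_neg h, τ_s h']
    rw [Finset.sum_congr rfl fun i _ => this i]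
    simp only [τ, hj, Fin.sum_univ_three]
    fin_cases j <;> cases sg x.1 <;> simp
  · intro v
    rw [sum_ch]
    have : ∀ i, (tW.root).1.head? ≠ some i := by simp [tW, rt]
    simp only [Fin.sum_univ_three, if_neg (this _), τ_s (this _)]
    simp [tW, rt, sg]

def T : SimpleGraph Wd where
  Adj x y := ∃ i, s i x = y
  symm := ⟨fun x y ⟨i, h⟩ => ⟨i, by rw [← h, s_s]⟩⟩
  loopless := ⟨fun x ⟨i, h⟩ => by
    by_cases hi : x.1.head? = some i
    · have := len_pr (ne_rt_of hi)
      rw [← s_of_eq hi, h] at this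
      omega
    · have := congrArg List.length (s_of_ne hi)
      rw [h] at this
      simp at this⟩

lemma ind {P : Wd → Prop} (h0 : P rt) (hs : ∀ i x, P x → P (s i x)) (x : Wd) : P x := by
  generalize hn : x.1.length = n
  induction n generalizing x with
  | zero =>
    have : x = rt := Subtype.ext (List.length_eq_zero_iff.mp hn)
    rw [this]; exact h0
  | succ n ih =>
    have hx : x ≠ rt := by
      rintro rfl
      simp [rt] at hn
    obtain ⟨i, hi⟩ := ne_rt hx
    rw [← (s_pr hi).2]
    apply hs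
    apply ih
    have := len_pr hx
    omega

lemma isTree : T.IsTree := by
  refine ⟨?_, ?_⟩
  · have : ∀ x, T.Reachable rt x := ind (SimpleGraph.Reachable.refl _)
      fun i x h => h.trans (SimpleGraph.Adj.reachable ⟨i, rfl⟩)
    have hne : Nonempty Wd := ⟨rt⟩
    exact ⟨fun x y => (this x).symm.trans (this y)⟩
  · intro v c hc
    obtain ⟨u, hu, hmax⟩ := Finset.exists_max_image c.support.toFinset (fun x => x.1.length)
      ⟨v, by simp⟩
    simp only [List.mem_toFinset] at hu hmax
    have hc' := hc.rotate hu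
    have key : ∀ y ∈ (c.rotate u hu).support, T.Adj u y → y = pr u := by
      rintro y hy ⟨i, rfl⟩
      have := hmax _ ((c.mem_support_rotate_iff u hu).mp hy)
      apply s_of_eq
      by_contra hi
      rw [s_of_ne hi] at this
      simp at this
    apply hc'.snd_ne_penultimate
    exact (key _ (SimpleGraph.Walk.getVert_mem_support _ _)
      (SimpleGraph.Walk.adj_snd hc'.not_nil)).trans
      (key _ (SimpleGraph.Walk.getVert_mem_support _ _)
        (SimpleGraph.Walk.adj_penultimate hc'.not_nil).symm).symm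

noncomputable def nbE (v : Wd) : Fin 3 ≃ T.neighborSet v := Equiv.ofInjective _ (s_inj v)

lemma tsum_nb (v : Wd) (f : Wd → ℂ) : ∑' w : T.neighborSet v, f w =
    (if v = tW.root then 0 else f (tW.par v)) + ∑ y ∈ tW.ch v, f y := by
  rw [← (nbE v).tsum_eq, tsum_fintype, sum_ch]
  change ∑ i, f (s i v) = (if v = rt then 0 else f (pr v)) + _
  by_cases h : v = rt
  · subst h
    simp [rt]
  · obtain ⟨j, hj⟩ := ne_rt h
    rw [if_neg h, ← s_of_eq hj, hj]
    simp only [Fin.sum_univ_three]
    fin_cases j <;> simp <;> ring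

def act (v w : Wd) : Wd := w.1.foldr s v

lemma act_s (v : Wd) (i : Fin 3) (w : Wd) : act v (s i w) = s i (act v w) := by
  by_cases h : w.1.head? = some i
  · have h1 := s_of_ne (s_pr h).1
    rw [(s_pr h).2] at h1
    rw [s_of_eq h, act, act, h1, List.foldr_cons, s_s]
  · rw [act, act, s_of_ne h, List.foldr_cons]

lemma eqv_id (g : Wd → Wd) (hg : ∀ i x, g (s i x) = s i (g x)) (v : Wd) (hv : g v = v) (x : Wd) :
    g x = x := by
  have h0 : g rt = rt := by
    revert hv
    refine ind (P := fun v => g v = v → g rt = rt) id ?_ v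
    intro i x ih h
    apply ih
    rw [hg] at h
    simpa [s_s] using congrArg (s i) h
  refine ind (P := fun x => g x = x) h0 ?_ x
  intro i x h
  rw [hg, h]

lemma act_surj (v : Wd) : ∃ u, act v u = rt := by
  have h : ∀ x, (∃ u, act v u = x) ↔ ∃ u, act v u = rt := by
    refine ind Iff.rfl ?_
    intro i x ih
    rw [← ih]
    constructor
    · rintro ⟨u, hu⟩
      exact ⟨s i u, by rw [act_s, hu, s_s]⟩
    · rintro ⟨u, hu⟩
      exact ⟨s i u, by rw [act_s, hu]⟩
  exact (h v).mp ⟨rt, rfl⟩

noncomputable def actE (v : Wd) : T ≃g T where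
  toFun := act v
  invFun := act (act_surj v).choose
  left_inv := eqv_id (fun x => act (act_surj v).choose (act v x)) (fun i x => by rw [act_s, act_s])
    (act_surj v).choose (by rw [(act_surj v).choose_spec]; rfl)
  right_inv := eqv_id (fun x => act v (act (act_surj v).choose x)) (fun i x => by rw [act_s, act_s])
    rt (act_surj v).choose_spec
  map_rel_iff' := by
    intro x y
    have hl : ∀ x, act (act_surj v).choose (act v x) = x :=
      eqv_id (fun x => act (act_surj v).choose (act v x)) (fun i x => by rw [act_s, act_s])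
        (act_surj v).choose (by rw [(act_surj v).choose_spec]; rfl)
    constructor
    · rintro ⟨i, h⟩
      refine ⟨i, ?_⟩
      have h' : s i (act v x) = act v y := h
      rw [← hl y, ← h', act_s, hl]
    · rintro ⟨i, rfl⟩
      exact ⟨i, (act_s v i x).symm⟩

def Γ : Subgroup (T ≃g T) where
  carrier := {g | (∀ i x, g (s i x) = s i (g x)) ∧ ∀ x, sg (g x).1 = sg x.1}
  one_mem' := ⟨fun _ _ => rfl, fun _ => rfl⟩
  mul_mem' := by
    rintro a b ⟨a1, a2⟩ ⟨b1, b2⟩
    exact ⟨fun i x => by rw [RelIso.mul_apply, RelIso.mul_apply, b1, a1],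
      fun x => by rw [RelIso.mul_apply, a2, b2]⟩
  inv_mem' := by
    rintro a ⟨a1, a2⟩
    refine ⟨fun i x => ?_, fun x => ?_⟩
    · apply a.injective
      rw [a1]
      simp
    · rw [← a2]
      simp

lemma actE_mem {v : Wd} (hv : sg v.1 = true) : actE v ∈ Γ := by
  refine ⟨act_s v, ?_⟩
  refine ind (P := fun x => sg (act v x).1 = sg x.1) hv ?_
  intro i x h
  rw [act_s, sg_s, sg_s, h]

lemma orbits (v : Wd) : ∃ g ∈ Γ, ∃ u ∈ ({rt, s 2 rt} : Finset Wd), g u = v := by
  cases h : sg v.1 with
  | true => exact ⟨actE v, actE_mem h, rt, by simp, rfl⟩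
  | false =>
    refine ⟨actE (s 2 v), actE_mem (by rw [sg_s, h]; rfl), s 2 rt, by simp, ?_⟩
    change act (s 2 v) (s 2 rt) = v
    rw [act_s]
    exact s_s 2 v

end Pool.Agent.H.MP_3a9720_mp
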