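import Pool.Agent.H.MP_3a9720_mp.Op

set_option autoImplicit false

namespace Pool.Agent.H.MP_3a9720_mp

variable {W : Type} [DecidableEq W]

noncomputable def ph (t : RT W) (F : W → ℂ) (x : W) : ℂ :=
  if h : x = t.root then 1 else F x * ph t F (t.par x)
termination_by t.rk x
decreasing_by rw [t.rk_par x h]; omega

lemma ph_root (t : RT W) (F : W → ℂ) : ph t F t.root = 1 := by rw [ph]; simp

lemma ph_ne (t : RT W) (F : W → ℂ) {x : W} (h : x ≠ t.root) :
    ph t F x = F x * ph t F (t.par x) := by rw [ph]; simp [h]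

def sph (t : RT W) : ℕ → Finset W
  | 0 => {t.root}
  | n + 1 => (sph t n).biUnion t.ch

lemma mem_sph (t : RT W) (n : ℕ) (x : W) : x ∈ sph t n ↔ t.rk x = n := by
  induction n generalizing x with
  | zero =>
    simp only [sph, Finset.mem_singleton]
    constructor
    · rintro rfl; exact t.rk_root
    · intro h
      by_contra hx
      rw [t.rk_par x hx] at h
      omega
  | succ n ih =>
    simp only [sph, Finset.mem_biUnion, ih, t.mem_ch]
    constructor
    · rintro ⟨y, h1, h2, rfl⟩
      rw [t.rk_par x h2, h1]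
    · intro h
      have hx : x ≠ t.root := by
        rintro rfl
        rw [t.rk_root] at h
        omega
      refine ⟨_, ?_, hx, rfl⟩
      rw [t.rk_par x hx] at h
      omega

lemma sum_sph (t : RT W) (n : ℕ) (h : W → ℝ) :
    ∑ y ∈ sph t (n + 1), h y = ∑ x ∈ sph t n, ∑ y ∈ t.ch x, h y := by
  rw [sph, Finset.sum_biUnion]
  intro x _ y _ hxy
  rw [Function.onFun, Finset.disjoint_left]
  intro w h1 h2
  rw [t.mem_ch] at h1 h2
  exact hxy (h1.2.symm.trans h2.2)

lemma weyl (t : RT W) (b : W → ℝ) (H : L W →L[ℂ] L W) (hH : IsH t b H) (z m M : ℝ)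
    (hm : 0 < m) (F : W → ℂ) (h0 : ∀ y, m ≤ -(F y).im) (hM : ∀ y, ‖F y‖ ≤ M)
    (hF : ∀ y, y ≠ t.root → F y * (z - b y - ∑ w ∈ t.ch y, F w) = 1) :
    (z : ℂ) ∈ spectrum ℂ H := by
  by_contra hz
  rw [spectrum.notMem_iff] at hz
  obtain ⟨u, hu⟩ := hz
  obtain ⟨C, hC0, hC⟩ : ∃ C : ℝ, 0 ≤ C ∧
      ∀ f : L W, ‖f‖ ≤ C * ‖(algebraMap ℂ (L W →L[ℂ] L W) (z : ℂ) - H) f‖ := by
    refine ⟨‖(↑u⁻¹ : L W →L[ℂ] L W)‖, norm_nonneg _, fun f => ?_⟩
    have : f = (↑u⁻¹ : L W →L[ℂ] L W) ((algebraMap ℂ (L W →L[ℂ] L W) (z : ℂ) - H) f) := by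
      rw [← hu, ← mul_apply_eq_comp, Units.inv_mul, one_apply_eq_self]
    conv_lhs => rw [this]
    exact ContinuousLinearMap.le_opNorm _ _
  have im_le : ∀ g : ℂ, -g.im ≤ ‖g‖ := fun g => (neg_le_abs _).trans (Complex.abs_im_le_norm g)
  have hmM : m ≤ M := (h0 t.root).trans ((im_le _).trans (hM _))
  have hM0 : 0 < M := by linarith
  have sM : ∀ x, ‖∑ w ∈ t.ch x, F w‖ ≤ 3 * M := by
    intro x
    calc _ ≤ ∑ w ∈ t.ch x, M := norm_sum_le_of_le _ fun w _ => hM w
      _ ≤ _ := by
        rw [Finset.sum_const, nsmul_eq_mul]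
        gcongr
        exact_mod_cast t.card_ch x
  obtain ⟨ι, hι⟩ : ∃ ι : W → ℝ, ∀ x, ι x = ∑ w ∈ t.ch x, -(F w).im := ⟨_, fun _ => rfl⟩
  have ι1 : ∀ x, m ≤ ι x := by
    intro x
    obtain ⟨w, hw⟩ := t.ne_ch x
    rw [hι]
    exact (h0 w).trans (Finset.single_le_sum (f := fun w => -(F w).im)
      (fun w _ => by linarith [h0 w]) hw)
  have ι2 : ∀ x, ι x ≤ 3 * M := by
    intro x
    refine le_trans ?_ ((im_le _).trans (sM x))
    rw [hι, Complex.im_sum, Finset.sum_neg_distrib]
  have ι3 : ∀ y, y ≠ t.root → ‖F y‖ ^ 2 * ι y = -(F y).im := by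
    intro y hy
    rw [im_of_mul (hF y hy), hι]
    simp [Complex.im_sum]
  have hJ : ∀ n, ∑ x ∈ sph t n, ‖ph t F x‖ ^ 2 * ι x = ι t.root := by
    intro n
    induction n with
    | zero => simp [sph, ph_root]
    | succ n ih =>
      rw [sum_sph, ← ih]
      apply Finset.sum_congr rfl
      intro x _
      rw [hι x, Finset.mul_sum]
      apply Finset.sum_congr rfl
      intro y hy
      rw [t.mem_ch] at hy
      rw [ph_ne t F hy.1, hy.2, norm_mul, ← ι3 y hy.1]
      ring
  have S1 : ∀ n, ∑ x ∈ sph t n, ‖ph t F x‖ ^ 2 ≤ 3 * M / m := by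
    intro n
    rw [le_div_iff₀ hm, Finset.sum_mul]
    refine le_trans ?_ ((hJ n).le.trans (ι2 _))
    apply Finset.sum_le_sum
    intro x _
    gcongr
    exact ι1 x
  have S2 : ∀ n, m / (3 * M) ≤ ∑ x ∈ sph t n, ‖ph t F x‖ ^ 2 := by
    intro n
    rw [div_le_iff₀ (by positivity), Finset.sum_mul]
    refine le_trans ((ι1 _).trans (hJ n).ge) ?_
    apply Finset.sum_le_sum
    intro x _
    gcongr
    exact ι2 x
  obtain ⟨K, hK0, hK1, hK2, hK3⟩ : ∃ K : ℝ, 0 ≤ K ∧
      ‖(z - b t.root - ∑ w ∈ t.ch t.root, F w : ℂ)‖ ≤ K ∧ 3 * M ≤ K ∧ 1 ≤ K * m := by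
    refine ⟨‖(z - b t.root - ∑ w ∈ t.ch t.root, F w : ℂ)‖ + 3 * M + 1 / m, by positivity, ?_, ?_, ?_⟩
    · have : 0 ≤ 3 * M + 1 / m := by positivity
      linarith
    · have : 0 ≤ ‖(z - b t.root - ∑ w ∈ t.ch t.root, F w : ℂ)‖ + 1 / m := by positivity
      linarith
    · have : 0 ≤ (‖(z - b t.root - ∑ w ∈ t.ch t.root, F w : ℂ)‖ + 3 * M) * m := by positivity
      have e : 1 / m * m = 1 := by field_simp
      linarith
  have main : ∀ N : ℕ, 1 ≤ N → N * (m / (3 * M)) ≤ C ^ 2 * (K ^ 2 * (3 * (3 * M / m))) := by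
    intro N hN
    let B : Finset W := (Finset.range (N + 1)).biUnion (sph t)
    have hB : ∀ x, x ∈ B ↔ t.rk x ≤ N := by
      intro x
      simp [B, mem_sph, Nat.lt_succ_iff]
    let f : L W := ⟨fun x => if t.rk x ≤ N then ph t F x else 0,
      mem_of _ (C := ∑ x ∈ B, ‖ph t F x‖ ^ 2) fun s => by
        rw [← Finset.sum_filter_ne_zero]
        refine le_trans (Finset.sum_le_sum_of_subset_of_nonneg (t := B) ?_
          (by intros; positivity)) (le_of_eq ?_)
        · intro x hx
          rw [hB]
          by_contra h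
          apply (Finset.mem_filter.mp hx).2
          simp [h]
        · apply Finset.sum_congr rfl
          intro x hx
          rw [if_pos ((hB x).mp hx)]⟩
    have hf : ∀ x, f x = if t.rk x ≤ N then ph t F x else 0 := fun _ => rfl
    have l1 : N * (m / (3 * M)) ≤ ‖f‖ ^ 2 := by
      refine le_trans ?_ (sum_le f B)
      rw [Finset.sum_biUnion]
      · calc _ ≤ ∑ n ∈ Finset.range (N + 1), m / (3 * M) := by
              rw [Finset.sum_const, Finset.card_range, nsmul_eq_mul]
              gcongr
              simp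
          _ ≤ _ := by
              apply Finset.sum_le_sum
              intro n hn
              refine (S2 n).trans (le_of_eq ?_)
              apply Finset.sum_congr rfl
              intro x hx
              rw [hf, if_pos]
              rw [mem_sph] at hx
              rw [Finset.mem_range] at hn
              omega
      · intro i _ j _ hij
        rw [Function.onFun, Finset.disjoint_left]
        intro w h1 h2
        rw [mem_sph] at h1 h2
        exact hij (h1.symm.trans h2)
    obtain ⟨g, hg⟩ : ∃ g, g = (algebraMap ℂ (L W →L[ℂ] L W) (z : ℂ) - H) f := ⟨_, rfl⟩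
    have hg' : ∀ x, g x = (z - b x) * f x - (if x = t.root then 0 else f (t.par x)) -
        ∑ y ∈ t.ch x, f y := by
      intro x
      rw [hg]
      simp only [sub_apply, lp.coeFn_sub, Pi.sub_apply, smul_apply, lp.coeFn_smul, Pi.smul_apply,
        smul_eq_mul, hH f x, Algebra.algebraMap_eq_smul_one, one_apply_eq_self]
      ring
    have hch : ∀ x, ∑ y ∈ t.ch x, f y =
        if t.rk x + 1 ≤ N then (∑ y ∈ t.ch x, F y) * ph t F x else 0 := by
      intro x
      have : ∀ y ∈ t.ch x, f y = if t.rk x + 1 ≤ N then F y * ph t F x else 0 := by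
        intro y hy
        rw [t.mem_ch] at hy
        rw [hf, t.rk_par y hy.1, ph_ne t F hy.1, hy.2]
      rw [Finset.sum_congr rfl this]
      split_ifs
      · rw [Finset.sum_mul]
      · simp
    have pt : ∀ x, ‖g x‖ ≤ if t.rk x = 0 ∨ t.rk x = N ∨ t.rk x = N + 1 then K * ‖ph t F x‖ else 0 := by
      intro x
      rw [hg', hch, hf x]
      by_cases hx : x = t.root
      · subst hx
        simp only [t.rk_root, zero_le, if_true, true_or, ph_root, mul_one, sub_zero, norm_one]
        rw [if_pos (by omega)]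
        exact hK1
      · have r := t.rk_par x hx
        have e := hF x hx
        rw [if_neg hx, hf]
        by_cases c1 : t.rk x + 1 ≤ N
        · rw [if_pos c1, if_pos (by omega), if_pos (by omega), if_neg (by omega), ph_ne t F hx]
          apply le_of_eq
          rw [norm_eq_zero]
          linear_combination ph t F (t.par x) * e
        · rw [if_neg c1]
          by_cases c2 : t.rk x = N
          · rw [if_pos (by omega), if_pos (by omega), if_pos (by omega)]
            have : (z - b x : ℂ) * ph t F x - ph t F (t.par x) - 0 =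
                (∑ y ∈ t.ch x, F y) * ph t F x := by
              rw [ph_ne t F hx]
              linear_combination ph t F (t.par x) * e
            rw [this, norm_mul]
            gcongr
            exact (sM x).trans hK2
          · by_cases c3 : t.rk x = N + 1
            · rw [if_neg (by omega), if_pos (by omega), if_pos (by omega), ph_ne t F hx]
              simp only [mul_zero, zero_sub, sub_zero, norm_neg, norm_mul]
              have h1 : m ≤ ‖F x‖ := (h0 x).trans (im_le _)
              calc _ = 1 * ‖ph t F (t.par x)‖ := (one_mul _).symm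
                _ ≤ (K * ‖F x‖) * ‖ph t F (t.par x)‖ := by
                  gcongr
                  exact hK3.trans (by gcongr)
                _ = _ := by ring
            · rw [if_neg (by omega), if_neg (by omega), if_neg (by omega)]
              simp
    have l2 : ‖g‖ ≤ √(K ^ 2 * (3 * (3 * M / m))) := by
      apply norm_le _ (Real.sqrt_nonneg _)
      intro s
      rw [Real.sq_sqrt (by positivity), ← Finset.sum_filter_ne_zero]
      calc _ ≤ ∑ x ∈ sph t 0 ∪ sph t N ∪ sph t (N + 1), ‖g x‖ ^ 2 := by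
            apply Finset.sum_le_sum_of_subset_of_nonneg _ (by intros; positivity)
            intro x hx
            simp only [Finset.mem_union, mem_sph]
            by_contra h
            apply (Finset.mem_filter.mp hx).2
            have := pt x
            rw [if_neg (by tauto)] at this
            simpa using this
        _ ≤ ∑ x ∈ sph t 0 ∪ sph t N ∪ sph t (N + 1), K ^ 2 * ‖ph t F x‖ ^ 2 := by
            apply Finset.sum_le_sum
            intro x hx
            simp only [Finset.mem_union, mem_sph] at hx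
            have := pt x
            rw [if_pos (by tauto)] at this
            rw [← mul_pow]
            gcongr
        _ ≤ _ := by
            rw [← Finset.mul_sum]
            gcongr
            have un : ∀ a c : Finset W, ∑ x ∈ a ∪ c, ‖ph t F x‖ ^ 2 ≤
                ∑ x ∈ a, ‖ph t F x‖ ^ 2 + ∑ x ∈ c, ‖ph t F x‖ ^ 2 := by
              intro a c
              rw [← Finset.sum_union_inter]
              have : 0 ≤ ∑ x ∈ a ∩ c, ‖ph t F x‖ ^ 2 := by positivity
              linarith
            linarith [un (sph t 0 ∪ sph t N) (sph t (N + 1)), un (sph t 0) (sph t N), S1 0, S1 N,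
              S1 (N + 1)]
    have l3 := hC f
    rw [← hg] at l3
    calc _ ≤ ‖f‖ ^ 2 := l1
      _ ≤ (C * √(K ^ 2 * (3 * (3 * M / m)))) ^ 2 := by
          gcongr
          exact l3.trans (by gcongr)
      _ = _ := by rw [mul_pow, Real.sq_sqrt (by positivity)]
  obtain ⟨N, hN⟩ := exists_nat_gt (C ^ 2 * (K ^ 2 * (3 * (3 * M / m))) / (m / (3 * M)))
  rw [div_lt_iff₀ (by positivity)] at hN
  have := main (N + 1) (by omega)
  push_cast at this
  have : 0 < m / (3 * M) := by positivity
  linarith

end Pool.Agent.H.MP_3a9720_mp
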